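import Pool.Agent.TH212.DV.C12

/-! A lower bound for the divisor functions by their small divisors. -/

set_option autoImplicit false

namespace Pool.Agent.V5helper54.DC
open Finset Pool.Agent.TH212.DV

theorem zeta_split (y : ℕ) : (ArithmeticFunction.zeta : AF) = hi y + lo y := by
  ext n
  rw [ArithmeticFunction.add_apply]
  exact zeta_eq y n

theorem hi_hi_zero (y m : ℕ) (h : m < y * y) : (hi y * hi y) m = 0 := by
  rw [ArithmeticFunction.mul_apply]
  apply sum_eq_zero
  rintro ⟨a, b⟩ hab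
  rw [Nat.mem_divisorsAntidiagonal] at hab
  simp only at hab ⊢
  rw [hi_apply, hi_apply]
  by_cases ha : a < y
  · rw [if_pos ha]; split_ifs <;> simp
  · by_cases hb : b < y
    · rw [if_pos hb]; split_ifs <;> simp
    · exfalso
      have : y * y ≤ a * b := Nat.mul_le_mul (not_lt.1 ha) (not_lt.1 hb)
      omega

theorem mul_zero_of (f g : AF) (M m : ℕ) (hm : m < M) (hf : ∀ a, a < M → f a = 0) : (f * g) m = 0 := by
  rw [ArithmeticFunction.mul_apply]
  apply sum_eq_zero
  rintro ⟨a, b⟩ hab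
  have h1 := Nat.mem_divisorsAntidiagonal.1 hab
  have h2 : a ≤ m := Nat.le_of_dvd (Nat.pos_of_ne_zero h1.2) ⟨b, h1.1.symm⟩
  simp only
  rw [hf a (by omega), zero_mul]

theorem mul_congr_of (f f' g : AF) (M m : ℕ) (hm : m < M) (hf : ∀ a, a < M → f a = f' a) : (f * g) m = (f' * g) m := by
  rw [ArithmeticFunction.mul_apply, ArithmeticFunction.mul_apply]
  apply sum_congr rfl
  rintro ⟨a, b⟩ hab
  have h1 := Nat.mem_divisorsAntidiagonal.1 hab
  have h2 : a ≤ m := Nat.le_of_dvd (Nat.pos_of_ne_zero h1.2) ⟨b, h1.1.symm⟩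
  simp only
  rw [hf a (by omega)]

theorem hi_pow (y t : ℕ) : ∀ m, m < y * y → (hi y * (hi y + lo y) ^ t) m = (hi y * lo y ^ t) m := by
  induction t with
  | zero => intro m _; simp
  | succ t ih =>
    intro m hm
    have e1 : hi y * (hi y + lo y) ^ (t + 1) = (hi y * (hi y + lo y) ^ t) * (hi y + lo y) := by ring
    have e2 : hi y * lo y ^ t * (hi y + lo y) = (hi y * hi y) * lo y ^ t + hi y * lo y ^ (t + 1) := by ring
    rw [e1, mul_congr_of _ _ _ (y * y) m hm ih, e2, ArithmeticFunction.add_apply,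
      mul_zero_of _ _ (y * y) m hm (fun a ha => hi_hi_zero y a ha), zero_add]

theorem binom_lower (y t : ℕ) : ∀ n, (t + 1) * (hi y * lo y ^ t) n ≤ ((hi y + lo y) ^ (t + 1)) n := by
  induction t with
  | zero =>
    intro n
    simp only [zero_add, one_mul, pow_zero, mul_one, pow_one, ArithmeticFunction.add_apply]
    exact Nat.le_add_right _ _
  | succ t ih =>
    intro n
    have e1 : (hi y + lo y) ^ (t + 1 + 1) = (hi y + lo y) ^ (t + 1) * lo y + (hi y + lo y) ^ (t + 1) * hi y := by ring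
    rw [e1, ArithmeticFunction.add_apply]
    have h1 : (t + 1) * (hi y * lo y ^ (t + 1)) n ≤ ((hi y + lo y) ^ (t + 1) * lo y) n := by
      have e2 : hi y * lo y ^ (t + 1) = (hi y * lo y ^ t) * lo y := by ring
      rw [e2, ArithmeticFunction.mul_apply, ArithmeticFunction.mul_apply, mul_sum]
      apply sum_le_sum
      intro i _
      rw [← mul_assoc]
      exact Nat.mul_le_mul_right _ (ih i.1)
    have h2 : (hi y * lo y ^ (t + 1)) n ≤ ((hi y + lo y) ^ (t + 1) * hi y) n := by
      rw [mul_comm (hi y)]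
      have h3 : ∀ s : ℕ, ∀ n, (lo y ^ s) n ≤ ((hi y + lo y) ^ s) n := by
        intro s
        induction s with
        | zero => intro n; simp
        | succ s ih2 =>
          intro n
          rw [pow_succ, pow_succ]
          exact mul_mono _ _ _ _ ih2 (fun m => by rw [ArithmeticFunction.add_apply]; exact Nat.le_add_left _ _) n
      exact mul_mono _ _ _ _ (h3 (t + 1)) (fun m => le_rfl) n
    calc (t + 1 + 1) * (hi y * lo y ^ (t + 1)) n = (t + 1) * (hi y * lo y ^ (t + 1)) n + (hi y * lo y ^ (t + 1)) n := by ring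
      _ ≤ _ := Nat.add_le_add h1 h2

/-- the divisors up to `K` -/
theorem SA_le (t K n : ℕ) (hK : 1 ≤ K) (hn : K * K < n) :
    (t + 1) * ∑ k ∈ (Icc 1 K).filter (fun k => k ∣ n), dk t k ≤ dk (t + 1) n := by
  obtain ⟨y, hy⟩ : ∃ y, y = (n + K - 1) / K := ⟨_, rfl⟩
  have hyle : ∀ a : ℕ, y ≤ a ↔ n ≤ K * a := by
    intro a
    rw [hy, Nat.div_le_iff_le_mul_add_pred (by omega)]
    omega
  have hyK : n ≤ K * y := (hyle y).1 le_rfl
  have hyy : n < y * y := by
    by_contra hcon
    rw [not_lt] at hcon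
    have h1 : n * n ≤ (K * y) * (K * y) := Nat.mul_le_mul hyK hyK
    have h2 : (K * y) * (K * y) = (K * K) * (y * y) := by ring
    have h3 : (K * K) * (y * y) ≤ (K * K) * n := Nat.mul_le_mul_left _ hcon
    have h4 : (K * K) * n < n * n := Nat.mul_lt_mul_of_pos_right hn (by omega)
    omega
  have h1 := binom_lower y t n
  rw [← zeta_split y] at h1
  refine le_trans (Nat.mul_le_mul_left _ ?_) h1
  rw [← hi_pow y t n hyy, ← zeta_split y, ArithmeticFunction.mul_apply]
  have h2 : ∑ k ∈ (Icc 1 K).filter (fun k => k ∣ n), dk t k = ∑ k ∈ n.divisors, if k ≤ K then dk t k else 0 := by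
    rw [← sum_filter]
    apply sum_congr _ (fun _ _ => rfl)
    ext k
    rw [mem_filter, mem_filter, mem_Icc, Nat.mem_divisors]
    constructor
    · rintro ⟨⟨h3, h4⟩, h5⟩
      exact ⟨⟨h5, by omega⟩, h4⟩
    · rintro ⟨⟨h3, h4⟩, h5⟩
      exact ⟨⟨Nat.pos_of_dvd_of_pos h3 (by omega), h5⟩, h3⟩
  rw [h2, ← Nat.sum_divisorsAntidiagonal' (f := fun _ k => if k ≤ K then dk t k else 0)]
  apply sum_le_sum
  rintro ⟨a, b⟩ hab
  rw [Nat.mem_divisorsAntidiagonal] at hab
  simp only at hab ⊢
  split_ifs with hb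
  · have ha0 : a ≠ 0 := by
      rintro rfl
      rw [zero_mul] at hab
      omega
    have hya : y ≤ a := by
      rw [hyle, ← hab.1, mul_comm a b]
      exact Nat.mul_le_mul_right _ hb
    rw [hi_apply, if_neg ha0, if_neg (by omega), one_mul]
    rfl
  · exact Nat.zero_le _

end Pool.Agent.V5helper54.DC
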