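import Pool.Agent.V5helper54.DC.A1

/-! The double sums with the greatest common divisors and their asymptotics. -/

set_option autoImplicit false

namespace Pool.Agent.V5helper54.DC
open Finset Pool.Agent.TH212.DV Filter Topology

/-- `(k, l)` if it divides `c`, and `0` otherwise -/
noncomputable def gd (c : ℤ) (k l : ℕ) : ℝ := if ((Nat.gcd k l : ℕ) : ℤ) ∣ c then (Nat.gcd k l : ℝ) else 0

theorem gd_nonneg (c : ℤ) (k l : ℕ) : 0 ≤ gd c k l := by
  unfold gd
  split_ifs <;> positivity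

theorem cz_natAbs (q : ℕ) (h : ℤ) : cz q h = cz q (h.natAbs : ℤ) := by
  unfold cz
  apply sum_congr _ (fun _ _ => rfl)
  apply filter_congr
  intro d _
  rw [Int.natCast_dvd_natCast, Int.natCast_dvd]

theorem gd_eq (c : ℤ) (k l Z : ℕ) (hk : 1 ≤ k) (hZ : k ≤ Z) :
    gd c k l = ∑ q ∈ Icc 1 Z, if q ∣ k ∧ q ∣ l then (cz q c : ℝ) else 0 := by
  have hg : 0 < Nat.gcd k l := Nat.gcd_pos_of_pos_left l hk
  unfold gd
  rw [← sum_cz _ c hg, ← sum_filter]
  apply sum_congr _ (fun _ _ => rfl)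
  ext q
  rw [Nat.mem_divisors, mem_filter, mem_Icc, Nat.dvd_gcd_iff]
  constructor
  · rintro ⟨h1, h2⟩
    have h3 := Nat.le_of_dvd hk h1.1
    exact ⟨⟨Nat.pos_of_dvd_of_pos h1.1 hk, by omega⟩, h1⟩
  · rintro ⟨h1, h2⟩
    exact ⟨h2, hg.ne'⟩

/-- the double sum -/
noncomputable def DT (W W' : ℕ → ℝ) (c : ℤ) (Z Z' : ℕ) : ℝ :=
  ∑ k ∈ Icc 1 Z, ∑ l ∈ Icc 1 Z', W k * W' l * gd c k l / (k * l)

theorem DT_eq (W W' : ℕ → ℝ) (c : ℤ) (Z Z' : ℕ) :
    DT W W' c Z Z' = ∑ q ∈ Icc 1 Z, (cz q c : ℝ) * (RR W Z q * RR W' Z' q) := by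
  unfold DT RR
  have h1 : ∀ k ∈ Icc 1 Z, ∀ l ∈ Icc 1 Z', W k * W' l * gd c k l / (k * l) =
      ∑ q ∈ Icc 1 Z, if q ∣ k ∧ q ∣ l then (cz q c : ℝ) * (W k / k * (W' l / l)) else 0 := by
    intro k hk l _
    rw [mem_Icc] at hk
    rw [gd_eq c k l Z hk.1 hk.2, mul_sum, sum_div]
    apply sum_congr rfl
    intro q _
    split_ifs
    · rw [mul_comm (W k * W' l), mul_div_assoc, mul_div_mul_comm]
    · simp
  rw [sum_congr rfl fun k hk => sum_congr rfl fun l hl => h1 k hk l hl]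
  rw [sum_congr rfl fun k _ => sum_comm, sum_comm]
  apply sum_congr rfl
  intro q _
  rw [sum_mul_sum, mul_sum, sum_filter]
  apply sum_congr rfl
  intro k _
  split_ifs with hk
  · rw [mul_sum, sum_filter]
    apply sum_congr rfl
    intro l _
    simp only [hk, true_and]
  · apply sum_eq_zero
    intro l _
    rw [if_neg (fun h => hk h.1)]

theorem RR_zero_of_lt (W : ℕ → ℝ) (Z q : ℕ) (h : Z < q) : RR W Z q = 0 := by
  unfold RR
  apply sum_eq_zero
  intro d hd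
  rw [mem_filter, mem_Icc] at hd
  have := Nat.le_of_dvd (by omega) hd.2
  omega

theorem DT_tsum (W W' : ℕ → ℝ) (c : ℤ) (Z Z' : ℕ) (u v : ℝ) :
    DT W W' c Z Z' / (u * v) = ∑' q : ℕ, (cz q c : ℝ) * ((RR W Z q / u) * (RR W' Z' q / v)) := by
  rw [tsum_eq_sum (s := Icc 1 Z), DT_eq, sum_div]
  · apply sum_congr rfl
    intro q _
    rw [mul_div_assoc, mul_div_mul_comm]
  · intro q hq
    rw [mem_Icc, not_and_or, not_le, not_le] at hq
    rcases hq with hq | hq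
    · have : q = 0 := by omega
      rw [this, cz_zero_left]
      simp
    · rw [RR_zero_of_lt W Z q hq]
      simp

/-- the weights -/
noncomputable def dw (s d : ℕ) : ℝ := (dk (s + 1) d : ℝ)

theorem RR_tendsto (s q : ℕ) (hq : 1 ≤ q) :
    Tendsto (fun Z : ℕ => RR (dw s) Z q / Real.log Z ^ (s + 1)) atTop (𝓝 (kap (s + 1) q / ((s + 1).factorial : ℝ))) := by
  obtain ⟨C, hC0, hC⟩ := RR_asymp s q hq
  have hlog : Tendsto (fun Z : ℕ => Real.log (Z : ℝ)) atTop atTop := Real.tendsto_log_atTop.comp tendsto_natCast_atTop_atTop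
  rw [tendsto_iff_norm_sub_tendsto_zero]
  have h0 : Tendsto (fun Z : ℕ => C * 2 ^ s / Real.log (Z : ℝ)) atTop (𝓝 0) := tendsto_const_nhds.div_atTop hlog
  refine squeeze_zero' (Eventually.of_forall fun _ => norm_nonneg _) ?_ h0
  filter_upwards [hlog.eventually_ge_atTop 1, eventually_ge_atTop 1] with Z hZ hZ1
  have hZr : (1 : ℝ) ≤ Z := by exact_mod_cast hZ1
  have h1 := hC Z hZr
  rw [Nat.floor_natCast] at h1
  have hL : 0 < Real.log (Z : ℝ) := by linarith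
  have e : RR (dw s) Z q / Real.log Z ^ (s + 1) - kap (s + 1) q / ((s + 1).factorial : ℝ) =
      (RR (dw s) Z q - kap (s + 1) q * (Real.log Z ^ (s + 1) / ((s + 1).factorial : ℕ))) / Real.log Z ^ (s + 1) := by
    field_simp
  rw [e, norm_div, Real.norm_eq_abs, Real.norm_eq_abs, abs_of_pos (a := Real.log (Z : ℝ) ^ (s + 1)) (by positivity),
    div_le_div_iff₀ (by positivity) hL]
  have h2 : (1 + Real.log Z) ^ s ≤ 2 ^ s * Real.log Z ^ s := by
    rw [← mul_pow]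
    exact pow_le_pow_left₀ (by linarith) (by linarith) s
  calc |RR (dw s) Z q - kap (s + 1) q * (Real.log Z ^ (s + 1) / ((s + 1).factorial : ℕ))| * Real.log Z ≤
      (C * (1 + Real.log Z) ^ s) * Real.log Z := mul_le_mul_of_nonneg_right h1 hL.le
    _ ≤ (C * (2 ^ s * Real.log Z ^ s)) * Real.log Z := by gcongr
    _ = _ := by ring

theorem RR_bound (s q Z : ℕ) (hq : 1 ≤ q) (hZ : 1 ≤ Real.log Z) :
    |RR (dw s) Z q / Real.log Z ^ (s + 1)| ≤ 2 ^ (s + 1) * (dk (s + 1) q / q) := by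
  have h1 := RR_le (dw s) 1 s Z q (fun d => by unfold dw; rw [one_mul]) zero_le_one hq
  have h2 : 0 ≤ RR (dw s) Z q := RR_nonneg _ _ _ (fun d => by unfold dw; positivity)
  have hL : 0 < Real.log (Z : ℝ) := by linarith
  rw [abs_of_nonneg (by positivity), div_le_iff₀ (by positivity)]
  refine h1.trans ?_
  have h3 : (1 + Real.log Z) ^ (s + 1) ≤ 2 ^ (s + 1) * Real.log Z ^ (s + 1) := by
    rw [← mul_pow]
    exact pow_le_pow_left₀ (by linarith) (by linarith) _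
  calc 1 * ((dk (s + 1) q : ℝ) / q) * (1 + Real.log Z) ^ (s + 1) ≤
      1 * ((dk (s + 1) q : ℝ) / q) * (2 ^ (s + 1) * Real.log Z ^ (s + 1)) := by gcongr
    _ = _ := by ring

theorem dom_summable (s : ℕ) (c : ℤ) (hc : c ≠ 0) :
    Summable (fun q : ℕ => ((dk (s + 1) q : ℝ) / q) ^ 2 * |(cz q c : ℝ)|) := by
  obtain ⟨Cs, hCs, h⟩ := cz_sums s
  apply summable_of_sum_range_le (c := Cs * sg c.natAbs) (fun q => by positivity)
  intro n
  refine le_trans ?_ (h c.natAbs (by omega) n).1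
  simp only [cz_natAbs _ c]
  have e : ∑ q ∈ range n, ((dk (s + 1) q : ℝ) / q) ^ 2 * |(cz q (c.natAbs : ℤ) : ℝ)| ≤
      ∑ q ∈ range (n + 1), ((dk (s + 1) q : ℝ) / q) ^ 2 * |(cz q (c.natAbs : ℤ) : ℝ)| :=
    sum_le_sum_of_subset_of_nonneg (range_subset_range.2 (Nat.le_succ n)) (fun _ _ _ => by positivity)
  refine e.trans (le_of_eq ?_)
  rw [sum_range_succ', Nat.cast_zero, div_zero]
  rw [zero_pow (by norm_num), zero_mul, add_zero]
  rw [← sum_image (f := fun q : ℕ => ((dk (s + 1) q : ℝ) / q) ^ 2 * |(cz q (c.natAbs : ℤ) : ℝ)|) (s := range n)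
    (g := fun i => i + 1) (by intro a _ b _ h; simpa using h)]
  apply sum_congr _ (fun _ _ => rfl)
  ext i
  simp only [mem_image, mem_range, mem_Icc]
  constructor
  · rintro ⟨j, hj, rfl⟩; omega
  · rintro ⟨h3, h4⟩; exact ⟨i - 1, by omega, by omega⟩

/-- the asymptotics of the double sum -/
theorem DT_tendsto (s : ℕ) (c : ℤ) (hc : c ≠ 0) :
    Tendsto (fun p : ℕ × ℕ => DT (dw s) (dw s) c p.1 p.2 / (Real.log p.1 ^ (s + 1) * Real.log p.2 ^ (s + 1)))
      (atTop ×ˢ atTop) (𝓝 (Sing (s + 1) c.natAbs / ((s + 1).factorial : ℝ) ^ 2)) := by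
  have e1 : Sing (s + 1) c.natAbs / ((s + 1).factorial : ℝ) ^ 2 =
      ∑' q : ℕ, (cz q c : ℝ) * ((kap (s + 1) q / ((s + 1).factorial : ℝ)) * (kap (s + 1) q / ((s + 1).factorial : ℝ))) := by
    unfold Sing
    rw [← tsum_div_const]
    apply tsum_congr
    intro q
    rw [← cz_natAbs]
    ring
  rw [e1]
  simp only [DT_tsum]
  have hlog : Tendsto (fun Z : ℕ => Real.log (Z : ℝ)) atTop atTop := Real.tendsto_log_atTop.comp tendsto_natCast_atTop_atTop
  apply tendsto_tsum_of_dominated_convergence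
    (bound := fun q : ℕ => (2 ^ (s + 1)) ^ 2 * (((dk (s + 1) q : ℝ) / q) ^ 2 * |(cz q c : ℝ)|))
    ((dom_summable s c hc).mul_left _)
  · intro q
    rcases Nat.eq_zero_or_pos q with h0 | h0
    · rw [h0]
      simp only [cz_zero_left, Int.cast_zero, zero_mul]
      exact tendsto_const_nhds
    · exact tendsto_const_nhds.mul (((RR_tendsto s q h0).comp tendsto_fst).mul ((RR_tendsto s q h0).comp tendsto_snd))
  · have h1 : ∀ᶠ p : ℕ × ℕ in atTop ×ˢ atTop, 1 ≤ Real.log (p.1 : ℝ) := (hlog.comp tendsto_fst).eventually_ge_atTop 1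
    have h2 : ∀ᶠ p : ℕ × ℕ in atTop ×ˢ atTop, 1 ≤ Real.log (p.2 : ℝ) := (hlog.comp tendsto_snd).eventually_ge_atTop 1
    filter_upwards [h1, h2] with p h1 h2
    intro q
    rcases Nat.eq_zero_or_pos q with h0 | h0
    · rw [h0, cz_zero_left]; simp
    · rw [norm_mul, norm_mul, Real.norm_eq_abs, Real.norm_eq_abs, Real.norm_eq_abs]
      have g1 := RR_bound s q p.1 h0 h1
      have g2 := RR_bound s q p.2 h0 h2
      calc |(cz q c : ℝ)| * (|RR (dw s) p.1 q / Real.log p.1 ^ (s + 1)| * |RR (dw s) p.2 q / Real.log p.2 ^ (s + 1)|) ≤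
          |(cz q c : ℝ)| * ((2 ^ (s + 1) * (dk (s + 1) q / q)) * (2 ^ (s + 1) * (dk (s + 1) q / q))) := by gcongr
        _ = _ := by ring

end Pool.Agent.V5helper54.DC
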