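import Pool.Agent.H398R2.BV3
import Pool.Agent.V5helper54.DC.A2

/-! Characters and coprimality conditions on intervals. -/

set_option autoImplicit false

namespace Pool.Agent.V5helper54.DC
open Finset Pool.Agent.Helper112 Pool.Agent.Helper112.BLB Pool.Agent.H398R2.BV

theorem sum_mult {M : Type*} [AddCommMonoid M] (d u v : ℕ) (hd : 1 ≤ d) (F : ℕ → M) :
    ∑ b ∈ (Ioc u v).filter (fun b => d ∣ b), F b = ∑ b ∈ Ioc (u / d) (v / d), F (d * b) := by
  rw [← sum_image (f := F) (s := Ioc (u / d) (v / d)) (g := fun b => d * b)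
    (by intro a _ b _ h; exact Nat.eq_of_mul_eq_mul_left hd h)]
  apply sum_congr _ (fun _ _ => rfl)
  ext b
  rw [mem_filter, mem_Ioc, mem_image]
  constructor
  · rintro ⟨⟨h1, h2⟩, a, rfl⟩
    refine ⟨a, ?_, rfl⟩
    rw [mem_Ioc]
    exact ⟨(Nat.div_lt_iff_lt_mul hd).2 (by rw [mul_comm]; exact h1), (Nat.le_div_iff_mul_le hd).2 (by rw [mul_comm]; exact h2)⟩
  · rintro ⟨a, ha, rfl⟩
    rw [mem_Ioc] at ha
    refine ⟨⟨?_, ?_⟩, dvd_mul_right _ _⟩
    · have := (Nat.div_lt_iff_lt_mul hd).1 ha.1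
      rwa [mul_comm] at this
    · have := (Nat.le_div_iff_mul_le hd).1 ha.2
      rwa [mul_comm] at this

theorem cop_ind (b m : ℕ) (hm : 1 ≤ m) : (if b.Coprime m then (1 : ℤ) else 0) =
    ∑ d ∈ m.divisors, if d ∣ b then ArithmeticFunction.moebius d else 0 := by
  have hg : Nat.gcd b m ≠ 0 := (Nat.gcd_pos_of_pos_right b hm).ne'
  have h1 := congrArg (fun f : ArithmeticFunction ℤ => f (Nat.gcd b m)) ArithmeticFunction.coe_zeta_mul_moebius
  simp only [ArithmeticFunction.coe_zeta_mul_apply, ArithmeticFunction.one_apply] at h1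
  have e0 : (if b.Coprime m then (1 : ℤ) else 0) = if Nat.gcd b m = 1 then 1 else 0 := rfl
  rw [e0, ← h1, ← sum_filter]
  apply sum_congr _ (fun _ _ => rfl)
  ext d
  rw [Nat.mem_divisors, mem_filter, Nat.mem_divisors, Nat.dvd_gcd_iff]
  constructor
  · rintro ⟨⟨h2, h3⟩, _⟩; exact ⟨⟨h3, by omega⟩, h2⟩
  · rintro ⟨⟨h2, _⟩, h3⟩; exact ⟨⟨h3, h2⟩, hg⟩

theorem norm_Ioc_le {f : ℕ} (hf : 2 ≤ f) (ψ : DirichletCharacter ℂ f) (hψ : ψ ≠ 1) (u v : ℕ) :
    ‖∑ b ∈ Ioc u v, ψ (b : ZMod f)‖ ≤ 2 * f := by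
  rcases Nat.lt_or_ge v u with h | h
  · rw [Ioc_eq_empty (by omega), sum_empty, norm_zero]
    positivity
  have e : ∑ b ∈ Ioc u v, ψ (b : ZMod f) = ∑ b ∈ Icc 1 v, ψ (b : ZMod f) - ∑ b ∈ Icc 1 u, ψ (b : ZMod f) := by
    rw [eq_sub_iff_add_eq, add_comm, ← sum_union]
    · apply sum_congr _ (fun _ _ => rfl)
      ext b
      rw [mem_union, mem_Icc, mem_Ioc, mem_Icc]
      omega
    · rw [disjoint_left]
      intro b hb hb2
      rw [mem_Icc] at hb
      rw [mem_Ioc] at hb2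
      omega
  rw [e]
  have h1 := norm_Icc_le hf ψ hψ v
  have h2 := norm_Icc_le hf ψ hψ u
  exact (norm_sub_le _ _).trans (by linarith)

theorem norm_cop_le {f : ℕ} (hf : 2 ≤ f) (ψ : DirichletCharacter ℂ f) (hψ : ψ ≠ 1) (u v m : ℕ) (hm : 1 ≤ m) :
    ‖∑ b ∈ (Ioc u v).filter (fun b => b.Coprime m), ψ (b : ZMod f)‖ ≤ m.divisors.card * (2 * f) := by
  have e : ∑ b ∈ (Ioc u v).filter (fun b => b.Coprime m), ψ (b : ZMod f) =
      ∑ d ∈ m.divisors, ((ArithmeticFunction.moebius d : ℤ) : ℂ) * (ψ (d : ZMod f) *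
        ∑ b ∈ Ioc (u / d) (v / d), ψ (b : ZMod f)) := by
    have h1 : ∀ b ∈ Ioc u v, (if b.Coprime m then ψ (b : ZMod f) else 0) =
        ∑ d ∈ m.divisors, if d ∣ b then ((ArithmeticFunction.moebius d : ℤ) : ℂ) * ψ (b : ZMod f) else 0 := by
      intro b _
      have h2 := congrArg (fun z : ℤ => (z : ℂ) * ψ (b : ZMod f)) (cop_ind b m hm)
      push_cast at h2
      rw [sum_mul] at h2
      simpa only [ite_mul, one_mul, zero_mul] using h2
    rw [sum_filter, sum_congr rfl h1, sum_comm]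
    apply sum_congr rfl
    intro d hd
    rw [← sum_filter, sum_mult d u v (Nat.pos_of_mem_divisors hd), mul_sum, mul_sum]
    apply sum_congr rfl
    intro b _
    push_cast
    rw [map_mul]
  rw [e]
  refine (norm_sum_le _ _).trans ?_
  rw [← nsmul_eq_mul, ← sum_const]
  apply sum_le_sum
  intro d _
  rw [norm_mul, norm_mul]
  have h1 : ‖((ArithmeticFunction.moebius d : ℤ) : ℂ)‖ ≤ 1 := by
    rw [Complex.norm_intCast]
    exact_mod_cast ArithmeticFunction.abs_moebius_le_one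
  have h2 := ψ.norm_le_one (d : ZMod f)
  have h3 := norm_Ioc_le hf ψ hψ (u / d) (v / d)
  calc _ ≤ 1 * (1 * (2 * (f : ℝ))) := by gcongr
    _ = _ := by ring

theorem phi_sum (k : ℕ) (hk : 1 ≤ k) : (Nat.totient k : ℝ) / k =
    ∑ d ∈ k.divisors, ((ArithmeticFunction.moebius d : ℤ) : ℝ) / d := by
  have h := (ArithmeticFunction.sum_eq_iff_sum_mul_moebius_eq (R := ℝ)
    (f := fun n => (Nat.totient n : ℝ)) (g := fun n => (n : ℝ))).mp
    (fun n _ => by exact_mod_cast Nat.sum_totient n) k hk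
  rw [← h, Nat.sum_divisorsAntidiagonal (f := fun x y => ((ArithmeticFunction.moebius x : ℤ) : ℝ) * (y : ℝ)), sum_div]
  apply sum_congr rfl
  intro d hd
  have hd1 := Nat.mem_divisors.1 hd
  have hd0 : (d : ℝ) ≠ 0 := by
    have := Nat.pos_of_mem_divisors hd
    positivity
  have hk0 : (k : ℝ) ≠ 0 := by positivity
  rw [Nat.cast_div hd1.1 hd0]
  field_simp

theorem cop_count (u v k : ℕ) (hk : 1 ≤ k) (huv : u ≤ v) :
    |(((Ioc u v).filter (fun b => b.Coprime k)).card : ℝ) - ((v : ℝ) - u) * ((Nat.totient k : ℝ) / k)| ≤ k.divisors.card := by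
  have e : (((Ioc u v).filter (fun b => b.Coprime k)).card : ℝ) =
      ∑ d ∈ k.divisors, ((ArithmeticFunction.moebius d : ℤ) : ℝ) * (((v / d : ℕ) : ℝ) - ((u / d : ℕ) : ℝ)) := by
    rw [card_filter]
    push_cast
    have h1 : ∀ b ∈ Ioc u v, (if b.Coprime k then (1 : ℝ) else 0) =
        ∑ d ∈ k.divisors, if d ∣ b then ((ArithmeticFunction.moebius d : ℤ) : ℝ) else 0 := by
      intro b _
      have h2 := congrArg (fun z : ℤ => (z : ℝ)) (cop_ind b k hk)
      push_cast at h2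
      exact h2
    rw [sum_congr rfl h1, sum_comm]
    apply sum_congr rfl
    intro d hd
    rw [← sum_filter, sum_mult d u v (Nat.pos_of_mem_divisors hd), sum_const, Nat.card_Ioc, nsmul_eq_mul, mul_comm,
      Nat.cast_sub (Nat.div_le_div_right huv)]
  rw [e, phi_sum k hk, mul_sum, ← sum_sub_distrib]
  refine (abs_sum_le_sum_abs _ _).trans ?_
  rw [card_eq_sum_ones]
  push_cast
  apply sum_le_sum
  intro d hd
  have hd0 : 0 < d := Nat.pos_of_mem_divisors hd
  have hdr : (0 : ℝ) < d := by exact_mod_cast hd0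
  have e2 : ((ArithmeticFunction.moebius d : ℤ) : ℝ) * (((v / d : ℕ) : ℝ) - ((u / d : ℕ) : ℝ)) -
      ((v : ℝ) - u) * (((ArithmeticFunction.moebius d : ℤ) : ℝ) / d) =
      ((ArithmeticFunction.moebius d : ℤ) : ℝ) * ((((v / d : ℕ) : ℝ) - v / d) - (((u / d : ℕ) : ℝ) - u / d)) := by
    ring
  rw [e2, abs_mul]
  have h1 : |((ArithmeticFunction.moebius d : ℤ) : ℝ)| ≤ 1 := by exact_mod_cast ArithmeticFunction.abs_moebius_le_one
  have h2 : ∀ x : ℕ, ((x / d : ℕ) : ℝ) ≤ x / d ∧ (x : ℝ) / d < ((x / d : ℕ) : ℝ) + 1 := by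
    intro x
    refine ⟨Nat.cast_div_le, ?_⟩
    rw [div_lt_iff₀ hdr]
    have := Nat.lt_mul_div_succ x hd0
    calc (x : ℝ) < ((d * (x / d + 1) : ℕ) : ℝ) := by exact_mod_cast this
      _ = _ := by push_cast; ring
  have h3 : |(((v / d : ℕ) : ℝ) - v / d) - (((u / d : ℕ) : ℝ) - u / d)| ≤ 1 := by
    rw [abs_le]
    have hv := h2 v
    have hu := h2 u
    constructor <;> linarith [hv.1, hv.2, hu.1, hu.2]
  calc _ ≤ 1 * 1 := mul_le_mul h1 h3 (abs_nonneg _) zero_le_one
    _ = 1 := one_mul _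

theorem inv_tot_le (n : ℕ) (hn : 1 ≤ n) : 1 / (Nat.totient n : ℝ) ≤ (n.divisors.card : ℝ) / n := by
  have h1 : n ≤ n.divisors.card * Nat.totient n := by
    calc n = ∑ d ∈ n.divisors, Nat.totient d := (Nat.sum_totient n).symm
      _ ≤ ∑ _d ∈ n.divisors, Nat.totient n := by
          apply sum_le_sum
          intro d hd
          exact Nat.le_of_dvd (Nat.totient_pos.mpr hn)
            (Nat.totient_dvd_of_dvd (Nat.dvd_of_mem_divisors hd))
      _ = _ := by rw [sum_const, smul_eq_mul]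
  have h2 : (0:ℝ) < Nat.totient n := by exact_mod_cast Nat.totient_pos.mpr hn
  have h3 : (0:ℝ) < n := by exact_mod_cast hn
  rw [div_le_div_iff₀ h2 h3, one_mul]
  exact_mod_cast h1

theorem sum_inv_tot (D : ℕ) : ∑ e ∈ Icc 1 D, 1 / (Nat.totient e : ℝ) ≤ (1 + Real.log D) ^ 2 := by
  refine le_trans (sum_le_sum fun e he => ?_) (sum_card_div_div D)
  rw [mem_Icc] at he
  exact inv_tot_le e he.1

open Classical in
theorem prim_ne_one {f : ℕ} (hf : 2 ≤ f) {ψ : DirichletCharacter ℂ f} (hψ : ψ.IsPrimitive) : ψ ≠ 1 := by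
  have : NeZero f := ⟨by omega⟩
  rintro rfl
  rw [DirichletCharacter.isPrimitive_def, DirichletCharacter.conductor_one] at hψ
  omega

open Classical in
theorem card_prim_le {f : ℕ} (hf : 1 ≤ f) :
    (((univ : Finset (DirichletCharacter ℂ f)).filter (fun ψ => ψ.IsPrimitive)).card : ℝ) ≤ Nat.totient f := by
  have : NeZero f := ⟨by omega⟩
  have h1 := DirichletCharacter.card_eq_totient_of_hasEnoughRootsOfUnity ℂ f
  rw [← h1, Nat.card_eq_fintype_card]
  exact_mod_cast (card_filter_le _ _)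

/-- the indicator of an interval -/
noncomputable def ind (u v b : ℕ) : ℝ := if b ∈ Ioc u v then 1 else 0

open Classical in
/-- small conductors -/
theorem P_small (X Y u v m f : ℕ) (β : ℕ → ℝ) (hf : 2 ≤ f) (hm : 1 ≤ m) (hv : v ≤ X) :
    (1 / (Nat.totient f : ℝ)) * P X Y (res m (ind u v)) β f ≤ m.divisors.card * (2 * f) * ∑ l ∈ Icc 1 Y, |β l| := by
  have hφ : (0:ℝ) < Nat.totient f := by exact_mod_cast Nat.totient_pos.mpr (by omega)
  have h1 : ∀ ψ : DirichletCharacter ℂ f, ψ ∈ (univ : Finset (DirichletCharacter ℂ f)).filter (fun ψ => ψ.IsPrimitive) →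
      ‖A X (res m (ind u v)) f ψ‖ * ‖A Y β f ψ‖ ≤ m.divisors.card * (2 * f) * ∑ l ∈ Icc 1 Y, |β l| := by
    intro ψ hψ
    rw [mem_filter] at hψ
    have hne := prim_ne_one hf hψ.2
    have e1 : A X (res m (ind u v)) f ψ = ∑ b ∈ (Ioc u v).filter (fun b => b.Coprime m), ψ (b : ZMod f) := by
      unfold A res ind
      rw [sum_filter]
      have hsub : Ioc u v ⊆ Icc 1 X := by
        intro b hb
        rw [mem_Ioc] at hb
        rw [mem_Icc]
        omega
      rw [← sum_subset hsub]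
      · apply sum_congr rfl
        intro b hb
        rw [if_pos hb]
        split_ifs <;> simp
      · intro b _ hb
        rw [if_neg hb]
        split_ifs <;> simp
    have e2 : ‖A Y β f ψ‖ ≤ ∑ l ∈ Icc 1 Y, |β l| := by
      unfold A
      refine (norm_sum_le _ _).trans ?_
      apply sum_le_sum
      intro b _
      rw [norm_mul, Complex.norm_real, Real.norm_eq_abs]
      have := ψ.norm_le_one (b : ZMod f)
      have h2 := abs_nonneg (β b)
      nlinarith
    rw [e1]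
    exact mul_le_mul (norm_cop_le hf ψ hne u v m hm) e2 (norm_nonneg _) (by positivity)
  have h2 : P X Y (res m (ind u v)) β f ≤ Nat.totient f * (m.divisors.card * (2 * f) * ∑ l ∈ Icc 1 Y, |β l|) := by
    unfold P
    refine (sum_le_sum h1).trans ?_
    rw [sum_const, nsmul_eq_mul]
    apply mul_le_mul_of_nonneg_right (card_prim_le (by omega))
    have : 0 ≤ ∑ l ∈ Icc 1 Y, |β l| := sum_nonneg fun _ _ => abs_nonneg _
    positivity
  calc (1 / (Nat.totient f : ℝ)) * P X Y (res m (ind u v)) β f ≤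
      (1 / (Nat.totient f : ℝ)) * (Nat.totient f * (m.divisors.card * (2 * f) * ∑ l ∈ Icc 1 Y, |β l|)) := by gcongr
    _ = _ := by field_simp

end Pool.Agent.V5helper54.DC
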