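import Pool.Agent.V5helper54.DC.B1

/-! The removal of the common factors. -/

set_option autoImplicit false

namespace Pool.Agent.V5helper54.DC
open Finset Pool.Agent.Helper112 Pool.Agent.Helper112.BLB Pool.Agent.H398R2.BV

/-- the number of the `b` with `u < b ≤ v` and `k ∣ b l + c` -/
noncomputable def cnt (c : ℤ) (k u v l : ℕ) : ℝ :=
  (((Ioc u v).filter (fun b : ℕ => (k : ℤ) ∣ (b : ℤ) * l + c)).card : ℝ)

/-- the error for one modulus -/
noncomputable def Er (c : ℤ) (k u v : ℕ) (β : ℕ → ℝ) (L L' : ℕ) : ℝ :=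
  ∑ l ∈ Ioc L L', β l * (cnt c k u v l - ((v : ℝ) - u) * gd c k l / k)

/-- the error for one modulus with a coprimality condition -/
noncomputable def Er1 (c : ℤ) (k u v : ℕ) (β : ℕ → ℝ) (L L' : ℕ) : ℝ :=
  ∑ l ∈ (Ioc L L').filter (fun l => l.Coprime k), β l * (cnt c k u v l - ((v : ℝ) - u) / k)

theorem Er_le (c : ℤ) (k u v : ℕ) (β : ℕ → ℝ) (L L' : ℕ) (hk : 1 ≤ k) :
    |Er c k u v β L L'| ≤ ∑ e ∈ k.divisors.filter (fun e : ℕ => (e : ℤ) ∣ c),
      |Er1 (c / e) (k / e) u v (fun l => β (e * l)) (L / e) (L' / e)| := by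
  have h1 : Er c k u v β L L' = ∑ e ∈ k.divisors, ∑ l ∈ (Ioc L L').filter (fun l => Nat.gcd k l = e),
      β l * (cnt c k u v l - ((v : ℝ) - u) * gd c k l / k) := by
    unfold Er
    rw [← sum_fiberwise_of_maps_to (g := fun l => Nat.gcd k l) (t := k.divisors)]
    intro l _
    exact Nat.mem_divisors.2 ⟨Nat.gcd_dvd_left _ _, by omega⟩
  have h2 : Er c k u v β L L' = ∑ e ∈ k.divisors.filter (fun e : ℕ => (e : ℤ) ∣ c),
      ∑ l ∈ (Ioc L L').filter (fun l => Nat.gcd k l = e), β l * (cnt c k u v l - ((v : ℝ) - u) * gd c k l / k) := by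
    rw [h1, sum_filter]
    apply sum_congr rfl
    intro e he
    split_ifs with hec
    · rfl
    · apply sum_eq_zero
      intro l hl
      rw [mem_filter] at hl
      have e1 : gd c k l = 0 := by
        unfold gd
        rw [if_neg (by rw [hl.2]; exact hec)]
      have e2 : cnt c k u v l = 0 := by
        unfold cnt
        rw [Nat.cast_eq_zero, card_eq_zero, filter_eq_empty_iff]
        intro b _ hb
        apply hec
        have h3 : (e : ℤ) ∣ (b : ℤ) * l + c := by
          refine dvd_trans ?_ hb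
          rw [← hl.2]
          exact_mod_cast Nat.gcd_dvd_left k l
        have h4 : (e : ℤ) ∣ (b : ℤ) * l := by
          apply Dvd.dvd.mul_left
          rw [← hl.2]
          exact_mod_cast Nat.gcd_dvd_right k l
        exact (Int.dvd_add_right h4).1 h3
      rw [e1, e2]
      simp
  rw [h2]
  refine (abs_sum_le_sum_abs _ _).trans (sum_le_sum ?_)
  intro e he
  rw [mem_filter, Nat.mem_divisors] at he
  obtain ⟨⟨⟨k1, rfl⟩, -⟩, c1, rfl⟩ := he
  have he0 : 0 < e := Nat.pos_of_ne_zero (by rintro rfl; simp at hk)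
  have hk1 : 0 < k1 := Nat.pos_of_ne_zero (by rintro rfl; simp at hk)
  have her : (0 : ℝ) < e := by exact_mod_cast he0
  have hk1r : (0 : ℝ) < k1 := by exact_mod_cast hk1
  have hez : (e : ℤ) ≠ 0 := by exact_mod_cast he0.ne'
  rw [Int.mul_ediv_cancel_left _ hez, Nat.mul_div_cancel_left _ he0]
  apply le_of_eq
  congr 1
  unfold Er1
  have h3 : (Ioc L L').filter (fun l => Nat.gcd (e * k1) l = e) =
      ((Ioc L L').filter (fun l => e ∣ l)).filter (fun l => Nat.gcd (e * k1) l = e) := by
    rw [filter_filter]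
    apply filter_congr
    intro l _
    constructor
    · intro h
      exact ⟨h ▸ Nat.gcd_dvd_right _ _, h⟩
    · exact fun h => h.2
  rw [h3, sum_filter, sum_mult e L L' he0, sum_filter]
  apply sum_congr rfl
  intro l _
  rw [Nat.gcd_mul_left]
  have h4 : e * Nat.gcd k1 l = e ↔ l.Coprime k1 := by
    rw [Nat.coprime_comm]
    constructor
    · intro h
      exact Nat.eq_of_mul_eq_mul_left he0 (by rw [h, mul_one])
    · intro h
      rw [h, mul_one]
  by_cases hl : l.Coprime k1
  · rw [if_pos (h4.2 hl), if_pos hl]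
    congr 2
    · unfold cnt
      congr 2
      apply filter_congr
      intro b _
      have e1 : (b : ℤ) * ((e * l : ℕ) : ℤ) + e * c1 = e * (b * l + c1) := by push_cast; ring
      rw [e1]
      push_cast
      exact Int.mul_dvd_mul_iff_left hez
    · unfold gd
      have e1 : Nat.gcd (e * k1) (e * l) = e := by
        rw [Nat.gcd_mul_left]
        exact h4.2 hl
      rw [e1, if_pos (dvd_mul_right _ _)]
      push_cast
      field_simp
  · rw [if_neg (fun h => hl (h4.1 h)), if_neg hl]

/-- the residue -/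
def rsd (c : ℤ) (k : ℕ) : ℕ := ((-c) % (k : ℤ)).toNat

theorem rsd_iff (c : ℤ) (k n : ℕ) (hk : 1 ≤ k) : (k : ℤ) ∣ (n : ℤ) + c ↔ n ≡ rsd c k [MOD k] := by
  have h0 : 0 ≤ (-c) % (k : ℤ) := Int.emod_nonneg _ (by omega)
  have h1 : ((rsd c k : ℕ) : ℤ) = (-c) % (k : ℤ) := Int.toNat_of_nonneg h0
  rw [← Int.natCast_modEq_iff, h1]
  constructor
  · intro h
    have h2 : (n : ℤ) ≡ -c [ZMOD k] := by
      rw [Int.modEq_iff_dvd]
      have : -c - (n : ℤ) = -((n : ℤ) + c) := by ring
      rw [this]
      exact (dvd_neg).2 h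
    exact h2.trans (Int.mod_modEq _ _).symm
  · intro h
    have h2 : (n : ℤ) ≡ -c [ZMOD k] := h.trans (Int.mod_modEq _ _)
    rw [Int.modEq_iff_dvd] at h2
    have : (n : ℤ) + c = -(-c - (n : ℤ)) := by ring
    rw [this]
    exact (dvd_neg).2 h2

theorem rsd_cop (c : ℤ) (k : ℕ) (hk : 1 ≤ k) (h : Nat.gcd c.natAbs k = 1) : (rsd c k).Coprime k := by
  have h0 : 0 ≤ (-c) % (k : ℤ) := Int.emod_nonneg _ (by omega)
  have h1 : ((rsd c k : ℕ) : ℤ) = (-c) % (k : ℤ) := Int.toNat_of_nonneg h0
  have h3 : IsCoprime c (k : ℤ) := Int.isCoprime_iff_gcd_eq_one.2 h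
  have h4 : ((rsd c k : ℕ) : ℤ) = -c + k * (-((-c) / (k : ℤ))) := by
    rw [h1, Int.emod_def]
    ring
  have h2 : IsCoprime ((rsd c k : ℕ) : ℤ) (k : ℤ) := by
    rw [h4]
    exact (h3.neg_left).add_mul_left_left _
  exact Nat.isCoprime_iff_coprime.1 h2

open Classical in
/-- the bound of the errors for one modulus -/
noncomputable def Bd (X Y g k u v L L' : ℕ) (β : ℕ → ℝ) : ℝ :=
  ∑ f ∈ k.divisors.filter (fun f => f ≠ 1), (1 / (Nat.totient k : ℝ)) *
    P X Y (res (k / f) (ind (u / g) (v / g))) (res (k / f) (res g (fun l => ind L L' l * β l))) f +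
  (∑ l ∈ Ioc L L', |β l|) * (2 * k.divisors.card / (Nat.totient k : ℝ))

theorem Bd_nonneg (X Y g k u v L L' : ℕ) (β : ℕ → ℝ) : 0 ≤ Bd X Y g k u v L L' β := by
  unfold Bd
  apply add_nonneg
  · apply sum_nonneg
    intro f _
    exact mul_nonneg (by positivity) (P_nonneg _ _ _ _ _)
  · exact mul_nonneg (sum_nonneg fun _ _ => abs_nonneg _) (by positivity)

theorem Er1_le (c : ℤ) (k u v : ℕ) (β : ℕ → ℝ) (L L' X Y : ℕ) (hk : 1 ≤ k) (huv : u ≤ v) (hX : v ≤ X) (hY : L' ≤ Y) :
    |Er1 c k u v β L L'| ≤ Bd X Y (Nat.gcd k c.natAbs) (k / Nat.gcd k c.natAbs) u v L L' β := by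
  obtain ⟨g, hg⟩ : ∃ g, g = Nat.gcd k c.natAbs := ⟨_, rfl⟩
  have hg0 : 0 < g := by rw [hg]; exact Nat.gcd_pos_of_pos_left _ hk
  obtain ⟨k', hk'⟩ : ∃ k', k = g * k' := by rw [hg]; exact Nat.gcd_dvd_left _ _
  obtain ⟨c', hc'⟩ : ∃ c', c = g * c' := by
    rw [hg]
    exact Int.natCast_dvd.2 (Nat.gcd_dvd_right _ _)
  have hk'0 : 0 < k' := Nat.pos_of_ne_zero (by rintro rfl; simp at hk'; omega)
  rw [← hg]
  have e0 : k / g = k' := by rw [hk', Nat.mul_div_cancel_left _ hg0]
  rw [e0]
  have hcop : Nat.gcd c'.natAbs k' = 1 := by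
    have h1 : g * Nat.gcd k' c'.natAbs = g := by
      rw [← Nat.gcd_mul_left]
      conv_rhs => rw [hg, hk', hc', Int.natAbs_mul, Int.natAbs_natCast]
    rw [Nat.gcd_comm]
    exact Nat.eq_of_mul_eq_mul_left hg0 (by rw [h1, mul_one])
  obtain ⟨a, ha⟩ : ∃ a, a = rsd c' k' := ⟨_, rfl⟩
  have hac : a.Coprime k' := by rw [ha]; exact rsd_cop c' k' hk'0 hcop
  have hgz : (g : ℤ) ≠ 0 := by exact_mod_cast hg0.ne'
  have hgr : (0 : ℝ) < g := by exact_mod_cast hg0
  have hk'r : (0 : ℝ) < k' := by exact_mod_cast hk'0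
  have hφ : (0:ℝ) < Nat.totient k' := by exact_mod_cast Nat.totient_pos.mpr hk'0
  -- the count
  have hcnt : ∀ l : ℕ, l.Coprime k → cnt c k u v l = ∑ b ∈ Ioc (u / g) (v / g), if b * l ≡ a [MOD k'] then (1 : ℝ) else 0 := by
    intro l hl
    unfold cnt
    rw [← sum_mult g u v hg0 (fun n => if (n / g) * l ≡ a [MOD k'] then (1 : ℝ) else 0) |>.trans
      (sum_congr rfl fun b _ => by rw [Nat.mul_div_cancel_left _ hg0]), card_filter]
    push_cast
    rw [sum_filter]
    apply sum_congr rfl
    intro b _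
    by_cases hgb : g ∣ b
    · rw [if_pos hgb]
      obtain ⟨b', rfl⟩ := hgb
      rw [Nat.mul_div_cancel_left _ hg0]
      have e1 : ((g * b' : ℕ) : ℤ) * l + c = g * (((b' * l : ℕ) : ℤ) + c') := by rw [hc']; push_cast; ring
      have e2 : (k : ℤ) ∣ ((g * b' : ℕ) : ℤ) * l + c ↔ b' * l ≡ a [MOD k'] := by
        rw [e1, ha, ← rsd_iff c' k' (b' * l) hk'0, hk']
        push_cast
        exact Int.mul_dvd_mul_iff_left hgz
      by_cases h : b' * l ≡ a [MOD k']
      · rw [if_pos h, if_pos (e2.2 h)]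
      · rw [if_neg h, if_neg (fun h' => h (e2.1 h'))]
    · rw [if_neg hgb, if_neg]
      intro h
      apply hgb
      have h1 : (g : ℤ) ∣ (b : ℤ) * l + c := dvd_trans ⟨k', by rw [hk']; push_cast; ring⟩ h
      have h2 : (g : ℤ) ∣ (b : ℤ) * l := (Int.dvd_add_left ⟨c', hc'⟩).1 h1
      have h3 : g ∣ b * l := by exact_mod_cast h2
      have h4 : g.Coprime l := (Nat.Coprime.coprime_dvd_right ⟨k', hk'⟩ hl).symm
      exact h4.dvd_of_dvd_mul_right h3
  -- the main identity
  obtain ⟨N, hN⟩ : ∃ N : ℝ, N = (((Ioc (u / g) (v / g)).filter (fun b => b.Coprime k')).card : ℝ) := ⟨_, rfl⟩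
  have hmain : Er1 c k u v β L L' =
      (∑ b ∈ Icc 1 X, ∑ l ∈ Icc 1 Y, ind (u / g) (v / g) b * res g (fun l => ind L L' l * β l) l *
        ((if b * l ≡ a [MOD k'] then (1 : ℝ) else 0) -
          (if (b * l).Coprime k' then (1 : ℝ) / (Nat.totient k' : ℝ) else 0))) +
      ∑ l ∈ (Ioc L L').filter (fun l => l.Coprime k), β l * (N / Nat.totient k' - ((v : ℝ) - u) / k) := by
    have hsub : Ioc L L' ⊆ Icc 1 Y := by
      intro b hb
      rw [mem_Ioc] at hb
      rw [mem_Icc]
      omega
    have hsub2 : Ioc (u / g) (v / g) ⊆ Icc 1 X := by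
      intro b hb
      rw [mem_Ioc] at hb
      rw [mem_Icc]
      exact ⟨Nat.lt_of_le_of_lt (Nat.zero_le _) hb.1, (hb.2.trans (Nat.div_le_self v g)).trans hX⟩
    have s1 : (∑ b ∈ Icc 1 X, ∑ l ∈ Icc 1 Y, ind (u / g) (v / g) b * res g (fun l => ind L L' l * β l) l *
        ((if b * l ≡ a [MOD k'] then (1 : ℝ) else 0) -
          (if (b * l).Coprime k' then (1 : ℝ) / (Nat.totient k' : ℝ) else 0))) =
        ∑ l ∈ Ioc L L', if l.Coprime k then β l * (∑ b ∈ Ioc (u / g) (v / g), (if b * l ≡ a [MOD k'] then (1 : ℝ) else 0) -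
          N / Nat.totient k') else 0 := by
      rw [sum_comm, ← sum_subset hsub]
      · apply sum_congr rfl
        intro l hl
        rw [← sum_subset hsub2]
        · have e1 : ∀ b ∈ Ioc (u / g) (v / g), ind (u / g) (v / g) b * res g (fun l => ind L L' l * β l) l *
              ((if b * l ≡ a [MOD k'] then (1 : ℝ) else 0) -
              (if (b * l).Coprime k' then (1 : ℝ) / (Nat.totient k' : ℝ) else 0)) =
              if l.Coprime k then β l * ((if b * l ≡ a [MOD k'] then (1 : ℝ) else 0) -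
                (if b.Coprime k' then (1 : ℝ) / (Nat.totient k' : ℝ) else 0)) else 0 := by
            intro b hb
            unfold ind res
            rw [if_pos hb]
            simp only [if_pos hl]
            by_cases hlk : l.Coprime k
            · have hlg : l.Coprime g := Nat.Coprime.coprime_dvd_right ⟨k', hk'⟩ hlk
              have hlk' : l.Coprime k' := Nat.Coprime.coprime_dvd_right ⟨g, by rw [hk', mul_comm]⟩ hlk
              rw [if_pos hlk, if_pos hlg]
              have : (b * l).Coprime k' ↔ b.Coprime k' := by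
                rw [Nat.coprime_mul_iff_left]
                exact ⟨fun h => h.1, fun h => ⟨h, hlk'⟩⟩
              simp only [this]
              ring
            · rw [if_neg hlk]
              by_cases hlg : l.Coprime g
              · have hlk' : ¬ l.Coprime k' := by
                  intro h
                  apply hlk
                  rw [hk']
                  exact Nat.Coprime.mul_right hlg h
                have h5 : ¬ (b * l).Coprime k' := fun h => hlk' (Nat.Coprime.coprime_mul_left h)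
                have h6 : ¬ b * l ≡ a [MOD k'] := by
                  intro h
                  apply h5
                  have := h.gcd_eq
                  rw [Nat.coprime_iff_gcd_eq_one, this]
                  exact hac
                rw [if_neg h5, if_neg h6]
                ring
              · rw [if_neg hlg]
                ring
          rw [sum_congr rfl e1]
          split_ifs with hlk
          · rw [← mul_sum, sum_sub_distrib]
            congr 2
            rw [hN, ← sum_filter, sum_const, nsmul_eq_mul]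
            ring
          · simp
        · intro b _ hb
          unfold ind
          rw [if_neg hb]
          ring
      · intro l _ hl
        apply sum_eq_zero
        intro b _
        unfold res ind
        simp only [if_neg hl]
        split_ifs <;> simp
    rw [s1, ← sum_filter, ← sum_add_distrib]
    unfold Er1
    apply sum_congr rfl
    intro l hl
    rw [mem_filter] at hl
    rw [hcnt l hl.2]
    ring
  rw [hmain]
  refine (abs_add_le _ _).trans ?_
  unfold Bd
  apply add_le_add
  · exact step12 X Y (ind (u / g) (v / g)) (res g (fun l => ind L L' l * β l)) k' hk'0.ne' a hac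
  · refine (abs_sum_le_sum_abs _ _).trans ?_
    have h7 : |N / Nat.totient k' - ((v : ℝ) - u) / k| ≤ 2 * k'.divisors.card / (Nat.totient k' : ℝ) := by
      have h8 := cop_count (u / g) (v / g) k' hk'0 (Nat.div_le_div_right huv)
      rw [← hN] at h8
      have h9 : ∀ x : ℕ, ((x / g : ℕ) : ℝ) ≤ x / g ∧ (x : ℝ) / g < ((x / g : ℕ) : ℝ) + 1 := by
        intro x
        refine ⟨Nat.cast_div_le, ?_⟩
        rw [div_lt_iff₀ hgr]
        have := Nat.lt_mul_div_succ x hg0
        calc (x : ℝ) < ((g * (x / g + 1) : ℕ) : ℝ) := by exact_mod_cast this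
          _ = _ := by push_cast; ring
      have h10 : |(((v / g : ℕ) : ℝ) - ((u / g : ℕ) : ℝ)) - ((v : ℝ) - u) / g| ≤ 1 := by
        have hv := h9 v
        have hu := h9 u
        rw [sub_div, abs_le]
        constructor <;> linarith [hv.1, hv.2, hu.1, hu.2]
      have hτ : (1 : ℝ) ≤ k'.divisors.card := by
        exact Nat.one_le_cast.2 (card_pos.2 ⟨1, Nat.mem_divisors.2 ⟨one_dvd _, hk'0.ne'⟩⟩)
      have hφk : (Nat.totient k' : ℝ) / k' ≤ 1 := by
        rw [div_le_one hk'r]
        exact_mod_cast Nat.totient_le k'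
      have h11 : |N - ((v : ℝ) - u) / g * ((Nat.totient k' : ℝ) / k')| ≤ 2 * k'.divisors.card := by
        have e1 : N - ((v : ℝ) - u) / g * ((Nat.totient k' : ℝ) / k') =
            (N - (((v / g : ℕ) : ℝ) - ((u / g : ℕ) : ℝ)) * ((Nat.totient k' : ℝ) / k')) +
            ((((v / g : ℕ) : ℝ) - ((u / g : ℕ) : ℝ)) - ((v : ℝ) - u) / g) * ((Nat.totient k' : ℝ) / k') := by ring
        rw [e1]
        refine (abs_add_le _ _).trans ?_
        rw [abs_mul, abs_of_nonneg (a := (Nat.totient k' : ℝ) / k') (by positivity)]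
        have : |(((v / g : ℕ) : ℝ) - ((u / g : ℕ) : ℝ)) - ((v : ℝ) - u) / g| * ((Nat.totient k' : ℝ) / k') ≤ 1 * 1 :=
          mul_le_mul h10 hφk (by positivity) zero_le_one
        linarith
      have e2 : N / Nat.totient k' - ((v : ℝ) - u) / k = (N - ((v : ℝ) - u) / g * ((Nat.totient k' : ℝ) / k')) / Nat.totient k' := by
        rw [hk']
        push_cast
        field_simp
      rw [e2, abs_div, abs_of_pos hφ]
      exact div_le_div_of_nonneg_right h11 hφ.le
    calc ∑ l ∈ (Ioc L L').filter (fun l => l.Coprime k), |β l * (N / Nat.totient k' - ((v : ℝ) - u) / k)| ≤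
        ∑ l ∈ (Ioc L L').filter (fun l => l.Coprime k), |β l| * (2 * k'.divisors.card / (Nat.totient k' : ℝ)) := by
          apply sum_le_sum
          intro l _
          rw [abs_mul]
          exact mul_le_mul_of_nonneg_left h7 (abs_nonneg _)
      _ ≤ ∑ l ∈ Ioc L L', |β l| * (2 * k'.divisors.card / (Nat.totient k' : ℝ)) :=
          sum_le_sum_of_subset_of_nonneg (filter_subset _ _) (fun _ _ _ => mul_nonneg (abs_nonneg _)
            (div_nonneg (mul_nonneg zero_le_two (Nat.cast_nonneg _)) hφ.le))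
      _ = _ := by rw [sum_mul]

end Pool.Agent.V5helper54.DC
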