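import Pool.Agent.V5helper54.DC.B2

/-! The sum over the moduli. -/

set_option autoImplicit false

namespace Pool.Agent.V5helper54.DC
open Finset Pool.Agent.Helper112 Pool.Agent.Helper112.BLB Pool.Agent.H398R2.BV

theorem Icc_eq_Ioc (K : ℕ) : Icc 1 K = Ioc 0 K := by
  ext x
  rw [mem_Icc, mem_Ioc]
  omega

theorem swap_div (K : ℕ) (S : Finset ℕ) (hS : ∀ e ∈ S, 1 ≤ e) (F : ℕ → ℕ → ℝ) (hF : ∀ e k, 0 ≤ F e k) :
    ∑ k ∈ Icc 1 K, ∑ e ∈ S.filter (fun e => e ∣ k), F e (k / e) ≤ ∑ e ∈ S, ∑ k ∈ Icc 1 K, F e k := by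
  have h1 : ∀ k ∈ Icc 1 K, ∑ e ∈ S.filter (fun e => e ∣ k), F e (k / e) = ∑ e ∈ S, if e ∣ k then F e (k / e) else 0 := by
    intro k _
    rw [sum_filter]
  rw [sum_congr rfl h1, sum_comm]
  apply sum_le_sum
  intro e he
  have he1 := hS e he
  rw [← sum_filter, Icc_eq_Ioc, sum_mult e 0 K he1, Nat.zero_div]
  have h2 : ∑ b ∈ Ioc 0 (K / e), F e (e * b / e) = ∑ b ∈ Ioc 0 (K / e), F e b := by
    apply sum_congr rfl
    intro b _
    rw [Nat.mul_div_cancel_left _ he1]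
  rw [h2]
  exact sum_le_sum_of_subset_of_nonneg (Ioc_subset_Ioc_right (Nat.div_le_self _ _)) (fun _ _ _ => hF _ _)

theorem sum_Er_le (c : ℤ) (hc : c ≠ 0) (K u v : ℕ) (β : ℕ → ℝ) (L L' X Y : ℕ) (huv : u ≤ v) (hX : v ≤ X) (hY : L' ≤ Y) :
    ∑ k ∈ Icc 1 K, |Er c k u v β L L'| ≤ ∑ e ∈ c.natAbs.divisors, ∑ g ∈ c.natAbs.divisors, ∑ k ∈ Icc 1 K,
      Bd X Y g k u v (L / e) (L' / e) (fun l => β (e * l)) := by
  have hD : ∀ e ∈ c.natAbs.divisors, 1 ≤ e := fun e he => Nat.pos_of_mem_divisors he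
  have h1 : ∑ k ∈ Icc 1 K, |Er c k u v β L L'| ≤ ∑ k ∈ Icc 1 K, ∑ e ∈ (c.natAbs.divisors).filter (fun e => e ∣ k),
      |Er1 (c / e) (k / e) u v (fun l => β (e * l)) (L / e) (L' / e)| := by
    apply sum_le_sum
    intro k hk
    rw [mem_Icc] at hk
    refine (Er_le c k u v β L L' hk.1).trans (le_of_eq ?_)
    apply sum_congr _ (fun _ _ => rfl)
    ext e
    rw [mem_filter, mem_filter, Nat.mem_divisors, Nat.mem_divisors, Int.natCast_dvd]
    constructor
    · rintro ⟨⟨h2, _⟩, h3⟩; exact ⟨⟨h3, by omega⟩, h2⟩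
    · rintro ⟨⟨h2, _⟩, h3⟩; exact ⟨⟨h3, by omega⟩, h2⟩
  refine h1.trans ((swap_div K c.natAbs.divisors hD
    (fun e k => |Er1 (c / e) k u v (fun l => β (e * l)) (L / e) (L' / e)|) (fun _ _ => abs_nonneg _)).trans ?_)
  apply sum_le_sum
  intro e he
  have hec : e ∣ c.natAbs := Nat.dvd_of_mem_divisors he
  obtain ⟨c1, hc1⟩ : (e : ℤ) ∣ c := Int.natCast_dvd.2 hec
  have he0 : (e : ℤ) ≠ 0 := by
    have := Nat.pos_of_mem_divisors he
    omega
  have hc1e : c / e = c1 := by rw [hc1, Int.mul_ediv_cancel_left _ he0]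
  rw [hc1e]
  have hc1d : c1.natAbs ∣ c.natAbs := by rw [hc1, Int.natAbs_mul]; exact dvd_mul_left _ _
  have h2 : ∑ k ∈ Icc 1 K, |Er1 c1 k u v (fun l => β (e * l)) (L / e) (L' / e)| ≤
      ∑ k ∈ Icc 1 K, ∑ g ∈ (c.natAbs.divisors).filter (fun g => g ∣ k),
        Bd X Y g (k / g) u v (L / e) (L' / e) (fun l => β (e * l)) := by
    apply sum_le_sum
    intro k hk
    rw [mem_Icc] at hk
    refine (Er1_le c1 k u v (fun l => β (e * l)) (L / e) (L' / e) X Y hk.1 huv hX ((Nat.div_le_self _ _).trans hY)).trans ?_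
    refine single_le_sum (f := fun g => Bd X Y g (k / g) u v (L / e) (L' / e) (fun l => β (e * l)))
      (fun g _ => Bd_nonneg _ _ _ _ _ _ _ _ _) ?_
    rw [mem_filter, Nat.mem_divisors]
    exact ⟨⟨(Nat.gcd_dvd_right _ _).trans hc1d, by omega⟩, Nat.gcd_dvd_left _ _⟩
  refine h2.trans (swap_div K c.natAbs.divisors hD
    (fun g k => Bd X Y g k u v (L / e) (L' / e) (fun l => β (e * l))) (fun _ _ => Bd_nonneg _ _ _ _ _ _ _ _ _))

theorem res_abs_le (m : ℕ) (α : ℕ → ℝ) (b : ℕ) : |res m α b| ≤ |α b| := by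
  unfold res
  split_ifs
  · exact le_rfl
  · rw [abs_zero]; exact abs_nonneg _

theorem ind_abs_le (u v b : ℕ) : |ind u v b| ≤ 1 := by
  unfold ind
  split_ifs <;> simp

theorem sqrt_sum_le (X : ℕ) (α : ℕ → ℝ) (M : ℝ) (hM : 0 ≤ M) (h : ∀ b ∈ Icc 1 X, |α b| ≤ M) :
    Real.sqrt (∑ b ∈ Icc 1 X, α b ^ 2) ≤ Real.sqrt X * M := by
  rw [Real.sqrt_le_left (by positivity), mul_pow, Real.sq_sqrt (by positivity)]
  calc ∑ b ∈ Icc 1 X, α b ^ 2 ≤ ∑ _b ∈ Icc 1 X, M ^ 2 := by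
        apply sum_le_sum
        intro b hb
        rw [← sq_abs]
        exact pow_le_pow_left₀ (abs_nonneg _) (h b hb) 2
    _ = _ := by rw [sum_const, Nat.card_Icc, nsmul_eq_mul, Nat.add_sub_cancel]

open Classical in
/-- the sum over the moduli for fixed common factors -/
theorem sum_Bd_le (X Y g K u v L L' F : ℕ) (β : ℕ → ℝ) (M T : ℝ) (hM : 0 ≤ M) (hv : v ≤ X) (hL : L' ≤ Y)
    (hβ : ∀ l, l ≤ L' → |β l| ≤ M) (hT : ∀ m : ℕ, 1 ≤ m → m ≤ K → (m.divisors.card : ℝ) ≤ T) (hT0 : 0 ≤ T) (hK : 1 ≤ K) :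
    ∑ k ∈ Icc 1 K, Bd X Y g k u v L L' β ≤ (1 + Real.log K) ^ 2 * (T * (2 * (F : ℝ) ^ 2) * (Y * M) +
      12 * (1 + Real.log K) * (Real.sqrt (X * Y) / (F + 1) + (Real.sqrt X + Real.sqrt Y) + K) * (Real.sqrt (X * Y) * M) +
      2 * T * (Y * M)) := by
  have hlog : 0 ≤ Real.log K := Real.log_natCast_nonneg K
  obtain ⟨B, hB⟩ : ∃ B : ℕ → ℝ, B = res g (fun l => ind L L' l * β l) := ⟨_, rfl⟩
  have hBM : ∀ l, |B l| ≤ M := by
    intro l
    rw [hB]
    refine (res_abs_le _ _ _).trans ?_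
    rw [abs_mul]
    by_cases hl : l ≤ L'
    · have h1 := ind_abs_le L L' l
      have h2 := hβ l hl
      calc |ind L L' l| * |β l| ≤ 1 * M := mul_le_mul h1 h2 (abs_nonneg _) zero_le_one
        _ = M := one_mul _
    · have : ind L L' l = 0 := by
        unfold ind
        rw [if_neg]
        rw [mem_Ioc]
        exact fun h => hl h.2
      rw [this, abs_zero, zero_mul]
      exact hM
  obtain ⟨G, hG⟩ : ∃ G : ℕ → ℕ → ℝ, G = fun f m => (1 / (Nat.totient m : ℝ)) * ((1 / (Nat.totient f : ℝ)) *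
    P X Y (res m (ind (u / g) (v / g))) (res m B) f) := ⟨_, rfl⟩
  have hG0 : ∀ f m, 0 ≤ G f m := by
    intro f m
    rw [hG]
    exact mul_nonneg (by positivity) (mul_nonneg (by positivity) (P_nonneg _ _ _ _ _))
  have hsumβ : ∑ l ∈ Ioc L L', |β l| ≤ Y * M := by
    calc ∑ l ∈ Ioc L L', |β l| ≤ ∑ l ∈ Icc 1 Y, M := by
          refine (sum_le_sum (fun l hl => hβ l (mem_Ioc.1 hl).2)).trans ?_
          apply sum_le_sum_of_subset_of_nonneg
          · intro b hb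
            rw [mem_Ioc] at hb
            rw [mem_Icc]
            omega
          · exact fun _ _ _ => hM
      _ = _ := by rw [sum_const, Nat.card_Icc, nsmul_eq_mul, Nat.add_sub_cancel]
  have hsumB : ∀ m, ∑ l ∈ Icc 1 Y, |res m B l| ≤ Y * M := by
    intro m
    calc ∑ l ∈ Icc 1 Y, |res m B l| ≤ ∑ l ∈ Icc 1 Y, M := sum_le_sum fun l _ => (res_abs_le _ _ _).trans (hBM l)
      _ = _ := by rw [sum_const, Nat.card_Icc, nsmul_eq_mul, Nat.add_sub_cancel]
  have h1 : ∑ k ∈ Icc 1 K, Bd X Y g k u v L L' β ≤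
      ∑ k ∈ Icc 1 K, ∑ f ∈ (Icc 2 K).filter (fun f => f ∣ k), G f (k / f) +
      ∑ k ∈ Icc 1 K, (Y * M) * (2 * T * (1 / (Nat.totient k : ℝ))) := by
    rw [← sum_add_distrib]
    apply sum_le_sum
    intro k hk
    rw [mem_Icc] at hk
    unfold Bd
    apply add_le_add
    · have e1 : (Icc 2 K).filter (fun f => f ∣ k) = k.divisors.filter (fun f => f ≠ 1) := by
        ext f
        rw [mem_filter, mem_filter, mem_Icc, Nat.mem_divisors]
        constructor
        · rintro ⟨⟨h2, h3⟩, h4⟩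
          exact ⟨⟨h4, by omega⟩, by omega⟩
        · rintro ⟨⟨h2, h3⟩, h4⟩
          have h5 := Nat.le_of_dvd hk.1 h2
          have h6 := Nat.pos_of_dvd_of_pos h2 hk.1
          exact ⟨⟨by omega, by omega⟩, h2⟩
      rw [e1]
      apply sum_le_sum
      intro f hf
      rw [mem_filter, Nat.mem_divisors] at hf
      obtain ⟨⟨⟨m, rfl⟩, -⟩, -⟩ := hf
      have hf0 : 0 < f := Nat.pos_of_ne_zero (by rintro rfl; simp at hk)
      have hm0 : 0 < m := Nat.pos_of_ne_zero (by rintro rfl; simp at hk)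
      rw [Nat.mul_div_cancel_left _ hf0, hG, ← hB]
      simp only
      rw [← mul_assoc]
      apply mul_le_mul_of_nonneg_right _ (P_nonneg _ _ _ _ _)
      have hφf : (0:ℝ) < Nat.totient f := by exact_mod_cast Nat.totient_pos.mpr hf0
      have hφm : (0:ℝ) < Nat.totient m := by exact_mod_cast Nat.totient_pos.mpr hm0
      rw [one_div_mul_one_div]
      apply one_div_le_one_div_of_le (by positivity)
      rw [mul_comm]
      exact_mod_cast Nat.totient_super_multiplicative f m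
    · have h2 := hT k hk.1 hk.2
      have hφk : (0:ℝ) < Nat.totient k := by exact_mod_cast Nat.totient_pos.mpr hk.1
      have h3 : 2 * (k.divisors.card : ℝ) / (Nat.totient k : ℝ) ≤ 2 * T * (1 / (Nat.totient k : ℝ)) := by
        rw [mul_one_div]
        apply div_le_div_of_nonneg_right _ hφk.le
        linarith
      exact mul_le_mul hsumβ h3 (div_nonneg (mul_nonneg zero_le_two (Nat.cast_nonneg _)) hφk.le) (by positivity)
  refine h1.trans ?_
  have h2 : ∑ k ∈ Icc 1 K, (Y * M) * (2 * T * (1 / (Nat.totient k : ℝ))) ≤ (1 + Real.log K) ^ 2 * (2 * T * (Y * M)) := by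
    rw [← mul_sum, ← mul_sum]
    have := sum_inv_tot K
    calc Y * M * (2 * T * ∑ i ∈ Icc 1 K, 1 / (Nat.totient i : ℝ)) ≤ Y * M * (2 * T * (1 + Real.log K) ^ 2) := by gcongr
      _ = _ := by ring
  obtain ⟨W, hW⟩ : ∃ W : ℝ, W = T * (2 * (F : ℝ) ^ 2) * (Y * M) +
      12 * (1 + Real.log K) * (Real.sqrt (X * Y) / (F + 1) + (Real.sqrt X + Real.sqrt Y) + K) * (Real.sqrt (X * Y) * M) := ⟨_, rfl⟩
  have hW0 : 0 ≤ W := by rw [hW]; positivity
  have h3 : ∀ m ∈ Icc 1 K, ∑ f ∈ Icc 2 K, (1 / (Nat.totient f : ℝ)) * P X Y (res m (ind (u / g) (v / g))) (res m B) f ≤ W := by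
    intro m hm
    rw [mem_Icc] at hm
    have hPn : ∀ f, 0 ≤ (1 / (Nat.totient f : ℝ)) * P X Y (res m (ind (u / g) (v / g))) (res m B) f :=
      fun f => mul_nonneg (by positivity) (P_nonneg _ _ _ _ _)
    have h4 : ∑ f ∈ Icc 2 K, (1 / (Nat.totient f : ℝ)) * P X Y (res m (ind (u / g) (v / g))) (res m B) f ≤
        ∑ f ∈ Icc 2 F, (1 / (Nat.totient f : ℝ)) * P X Y (res m (ind (u / g) (v / g))) (res m B) f +
        ∑ f ∈ Icc (F + 1) K, (1 / (Nat.totient f : ℝ)) * P X Y (res m (ind (u / g) (v / g))) (res m B) f := by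
      have hsub : Icc 2 K ⊆ Icc 2 F ∪ Icc (F + 1) K := by
        intro x hx
        rw [mem_Icc] at hx
        rw [mem_union, mem_Icc, mem_Icc]
        omega
      refine (sum_le_sum_of_subset_of_nonneg hsub fun f _ _ => hPn f).trans ?_
      rw [← sum_union_inter]
      have : 0 ≤ ∑ x ∈ Icc 2 F ∩ Icc (F + 1) K, (1 / (Nat.totient x : ℝ)) * P X Y (res m (ind (u / g) (v / g))) (res m B) x :=
        sum_nonneg fun f _ => hPn f
      linarith
    refine h4.trans ?_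
    rw [hW]
    apply add_le_add
    · have h5 : ∀ f ∈ Icc 2 F, (1 / (Nat.totient f : ℝ)) * P X Y (res m (ind (u / g) (v / g))) (res m B) f ≤
          T * (2 * F) * (Y * M) := by
        intro f hf
        rw [mem_Icc] at hf
        refine (P_small X Y (u / g) (v / g) m f (res m B) hf.1 hm.1 ((Nat.div_le_self _ _).trans hv)).trans ?_
        have h6 := hT m hm.1 hm.2
        have h7 := hsumB m
        have h8 : (f : ℝ) ≤ F := by exact_mod_cast hf.2
        have h9 : (0 : ℝ) ≤ ∑ l ∈ Icc 1 Y, |res m B l| := sum_nonneg fun _ _ => abs_nonneg _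
        apply mul_le_mul _ h7 h9 (by positivity)
        exact mul_le_mul h6 (by linarith) (by positivity) hT0
      refine (sum_le_sum h5).trans ?_
      rw [sum_const, Nat.card_Icc, nsmul_eq_mul]
      have h10 : ((F + 1 - 2 : ℕ) : ℝ) ≤ F := by
        have : F + 1 - 2 ≤ F := by omega
        exact_mod_cast this
      calc ((F + 1 - 2 : ℕ) : ℝ) * (T * (2 * F) * (Y * M)) ≤ F * (T * (2 * F) * (Y * M)) := by gcongr
        _ = _ := by ring
    · have h5 := step45 X Y (res m (ind (u / g) (v / g))) (res m B) (F + 1) K (by omega) hK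
      push_cast at h5
      refine h5.trans ?_
      apply mul_le_mul_of_nonneg_left _ (by positivity)
      have h6 := sqrt_sum_le X (res m (ind (u / g) (v / g))) 1 zero_le_one
        (fun b _ => (res_abs_le _ _ _).trans (ind_abs_le _ _ _))
      have h7 := sqrt_sum_le Y (res m B) M hM (fun b _ => (res_abs_le _ _ _).trans (hBM b))
      calc _ ≤ (Real.sqrt X * 1) * (Real.sqrt Y * M) := mul_le_mul h6 h7 (Real.sqrt_nonneg _) (by positivity)
        _ = Real.sqrt (X * Y) * M := by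
            rw [Real.sqrt_mul (by positivity)]
            ring
  have h4 : ∑ k ∈ Icc 1 K, ∑ f ∈ (Icc 2 K).filter (fun f => f ∣ k), G f (k / f) ≤ (1 + Real.log K) ^ 2 * W := by
    refine (swap_div K (Icc 2 K) (fun e he => by rw [mem_Icc] at he; omega) G hG0).trans ?_
    rw [sum_comm]
    calc ∑ m ∈ Icc 1 K, ∑ f ∈ Icc 2 K, G f m ≤ ∑ m ∈ Icc 1 K, (1 / (Nat.totient m : ℝ)) * W := by
          apply sum_le_sum
          intro m hm
          rw [hG]
          simp only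
          rw [← mul_sum]
          exact mul_le_mul_of_nonneg_left (h3 m hm) (by positivity)
      _ = (∑ m ∈ Icc 1 K, 1 / (Nat.totient m : ℝ)) * W := by rw [sum_mul]
      _ ≤ _ := mul_le_mul_of_nonneg_right (sum_inv_tot K) hW0
  calc _ ≤ (1 + Real.log K) ^ 2 * W + (1 + Real.log K) ^ 2 * (2 * T * (Y * M)) := add_le_add h4 h2
    _ = _ := by rw [hW]; ring

end Pool.Agent.V5helper54.DC
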