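import Pool.Agent.V5helper54.DC.B3

/-! The distribution in residue classes on average over the moduli up to the square root. -/

set_option autoImplicit false

namespace Pool.Agent.V5helper54.DC
open Finset Pool.Agent.Helper112 Pool.Agent.Helper112.BLB Pool.Agent.H398R2.BV
open Pool.Agent.TH212.DV (ev_pow dk_eps dk)

theorem card_div_eps (η : ℝ) (hη : 0 < η) : ∃ N₀ : ℕ, 1 ≤ N₀ ∧ ∀ N : ℕ, N₀ ≤ N → ∀ m : ℕ, 1 ≤ m → m ≤ N → (m.divisors.card : ℝ) ≤ (N : ℝ) ^ η := by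
  obtain ⟨C, hC, h⟩ := divisor_bound (η / 2) (by positivity)
  obtain ⟨N₀, hN⟩ := ev_pow 0 C (η / 2) (by positivity)
  refine ⟨max N₀ 1, le_max_right _ _, fun N hN0 m hm hmN => ?_⟩
  have h1 := hN N ((le_max_left _ _).trans hN0)
  rw [pow_zero, mul_one] at h1
  have hN1 : 1 ≤ N := (le_max_right _ _).trans hN0
  have hNr : (0 : ℝ) < N := by exact_mod_cast hN1
  have hmN' : (m : ℝ) ≤ N := by exact_mod_cast hmN
  calc (m.divisors.card : ℝ) ≤ C * (m : ℝ) ^ (η / 2) := h m hm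
    _ ≤ (N : ℝ) ^ (η / 2) * (N : ℝ) ^ (η / 2) :=
        mul_le_mul h1 (Real.rpow_le_rpow (Nat.cast_nonneg _) hmN' (by positivity)) (by positivity) (by positivity)
    _ = _ := by rw [← Real.rpow_add hNr]; congr 1; ring

theorem BV (c : ℤ) (hc : c ≠ 0) (δ : ℝ) (hδ : 0 < δ) (hδ2 : δ ≤ 1 / 2) : ∃ N₀ : ℕ, 1 ≤ N₀ ∧ ∀ N : ℕ, N₀ ≤ N →
    ∀ K u v L L' : ℕ, ∀ β : ℕ → ℝ, (K : ℝ) ≤ (N : ℝ) ^ (1 / 2 - δ) → u ≤ v → (v : ℝ) * L' ≤ 4 * N →
    (v : ℝ) ≤ (N : ℝ) ^ (1 - δ) → (L' : ℝ) ≤ (N : ℝ) ^ (1 - δ) → (∀ l, l ≤ L' → |β l| ≤ (N : ℝ) ^ (δ / 64)) →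
    ∑ k ∈ Icc 1 K, |Er c k u v β L L'| ≤ (N : ℝ) ^ (1 - δ / 8) := by
  obtain ⟨N₁, hN₁, hτ⟩ := card_div_eps (δ / 64) (by positivity)
  obtain ⟨N₂, hN₂⟩ := ev_pow 3 (8 * 150 * (c.natAbs.divisors.card : ℝ) ^ 2) (3 * δ / 32) (by positivity)
  refine ⟨max (max N₁ N₂) 3, le_trans (by norm_num) (le_max_right _ _), ?_⟩
  intro N hN K u v L L' β hK huv hvL hv hL hβ
  have hNN1 : N₁ ≤ N := (le_max_left _ _).trans ((le_max_left _ _).trans hN)
  have hNN2 : N₂ ≤ N := (le_max_right _ _).trans ((le_max_left _ _).trans hN)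
  have hN3 : 3 ≤ N := (le_max_right _ _).trans hN
  have hn1 : (1 : ℝ) ≤ N := by
    have : 1 ≤ N := by omega
    exact_mod_cast this
  have hn0 : (0 : ℝ) < N := by linarith
  obtain ⟨n, hn⟩ : ∃ n : ℝ, n = (N : ℝ) := ⟨_, rfl⟩
  rw [← hn] at hn1 hn0
  have hlog1 : 1 ≤ Real.log N := by
    rw [← Real.log_exp 1]
    apply Real.log_le_log (Real.exp_pos _)
    have h1 := Real.exp_one_lt_d9
    have h2 : (3 : ℝ) ≤ N := by exact_mod_cast hN3
    linarith
  have hfin := hN₂ N hNN2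
  rcases Nat.eq_zero_or_pos K with hK0 | hK0
  · rw [hK0]
    simp only [Icc_eq_empty_of_lt (Nat.zero_lt_one), sum_empty]
    positivity
  have hKN : K ≤ N := by
    have h1 : (K : ℝ) ≤ N := by
      rw [← hn]
      rw [← hn] at hK
      refine hK.trans ?_
      conv_rhs => rw [← Real.rpow_one n]
      exact Real.rpow_le_rpow_of_exponent_le hn1 (by linarith)
    exact_mod_cast h1
  obtain ⟨M, hM⟩ : ∃ M : ℝ, M = n ^ (δ / 64) := ⟨_, rfl⟩
  obtain ⟨F, hF⟩ : ∃ F : ℕ, F = ⌊n ^ (δ / 4)⌋₊ := ⟨_, rfl⟩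
  have hM0 : 0 ≤ M := by rw [hM]; positivity
  have hlogK : Real.log K ≤ Real.log N := by
    apply Real.log_le_log (by exact_mod_cast hK0)
    exact_mod_cast hKN
  have hlogK0 : 0 ≤ Real.log K := Real.log_natCast_nonneg K
  have hF1 : (F : ℝ) ≤ n ^ (δ / 4) := by rw [hF]; exact Nat.floor_le (by positivity)
  have hF2 : n ^ (δ / 4) ≤ (F : ℝ) + 1 := by rw [hF]; exact (Nat.lt_floor_add_one _).le
  have hFF : (F : ℝ) ^ 2 ≤ n ^ (δ / 2) := by
    calc (F : ℝ) ^ 2 ≤ (n ^ (δ / 4)) ^ 2 := pow_le_pow_left₀ (Nat.cast_nonneg _) hF1 2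
      _ = _ := by rw [← Real.rpow_natCast, ← Real.rpow_mul hn0.le]; congr 1; push_cast; ring
  have hsq : Real.sqrt ((v : ℝ) * L') ≤ 2 * n ^ (1 / 2 : ℝ) := by
    rw [Real.sqrt_le_left (by positivity), mul_pow, ← Real.rpow_natCast (n ^ (1 / 2 : ℝ)), ← Real.rpow_mul hn0.le]
    norm_num
    rw [hn]
    exact hvL
  have hsv : ∀ w : ℕ, (w : ℝ) ≤ n ^ (1 - δ) → Real.sqrt w ≤ n ^ (1 / 2 - δ / 2) := by
    intro w hw
    rw [Real.sqrt_le_left (by positivity), ← Real.rpow_natCast, ← Real.rpow_mul hn0.le]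
    refine hw.trans (le_of_eq ?_)
    congr 1
    push_cast
    ring
  rw [← hn] at hv hL hK hβ
  have key : ∀ e ∈ c.natAbs.divisors, ∀ g ∈ c.natAbs.divisors, ∑ k ∈ Icc 1 K, Bd v L' g k u v (L / e) (L' / e) (fun l => β (e * l)) ≤
      8 * 150 * Real.log N ^ 3 * n ^ (1 - δ / 4 + δ / 32) := by
    intro e he g _
    have hb := sum_Bd_le v L' g K u v (L / e) (L' / e) F (fun l => β (e * l)) M M hM0 le_rfl (Nat.div_le_self _ _)
      (fun l hl => by
        rw [hM]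
        apply hβ
        exact (Nat.mul_le_mul_left e hl).trans (Nat.mul_div_le _ _))
      (fun m hm hmK => by
        rw [hM, hn]
        exact hτ N hNN1 m hm (hmK.trans hKN)) hM0 hK0
    refine hb.trans ?_
    have hMM : M * M = n ^ (δ / 32) := by rw [hM, ← Real.rpow_add hn0]; congr 1; ring
    have hMle : M ≤ n ^ (δ / 32) := by rw [hM]; exact Real.rpow_le_rpow_of_exponent_le hn1 (by linarith)
    obtain ⟨Z, hZ⟩ : ∃ Z : ℝ, Z = n ^ (1 - δ / 4 + δ / 32) := ⟨_, rfl⟩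
    have hZ0 : 0 < Z := by rw [hZ]; positivity
    have t1 : M * (2 * (F : ℝ) ^ 2) * (L' * M) ≤ 2 * Z := by
      calc M * (2 * (F : ℝ) ^ 2) * (L' * M) = 2 * ((M * M) * ((F : ℝ) ^ 2 * L')) := by ring
        _ ≤ 2 * (n ^ (δ / 32) * (n ^ (δ / 2) * n ^ (1 - δ))) := by rw [hMM]; gcongr
        _ = 2 * n ^ (δ / 32 + (δ / 2 + (1 - δ))) := by rw [← Real.rpow_add hn0, ← Real.rpow_add hn0]
        _ ≤ 2 * Z := by
            rw [hZ]
            apply mul_le_mul_of_nonneg_left _ (by norm_num)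
            exact Real.rpow_le_rpow_of_exponent_le hn1 (by linarith)
    have t3 : 2 * M * (L' * M) ≤ 2 * Z := by
      calc 2 * M * (L' * M) = 2 * ((M * M) * L') := by ring
        _ ≤ 2 * (n ^ (δ / 32) * n ^ (1 - δ)) := by rw [hMM]; gcongr
        _ = 2 * n ^ (δ / 32 + (1 - δ)) := by rw [← Real.rpow_add hn0]
        _ ≤ 2 * Z := by
            rw [hZ]
            apply mul_le_mul_of_nonneg_left _ (by norm_num)
            exact Real.rpow_le_rpow_of_exponent_le hn1 (by linarith)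
    have t2a : Real.sqrt ((v : ℝ) * L') / (F + 1) ≤ 2 * n ^ (1 / 2 - δ / 4) := by
      rw [div_le_iff₀ (by positivity)]
      calc Real.sqrt ((v : ℝ) * L') ≤ 2 * n ^ (1 / 2 : ℝ) := hsq
        _ = 2 * n ^ (1 / 2 - δ / 4) * n ^ (δ / 4) := by rw [mul_assoc, ← Real.rpow_add hn0]; congr 2; ring
        _ ≤ _ := by gcongr
    have t2b : Real.sqrt ((v : ℝ) * L') / (F + 1) + (Real.sqrt v + Real.sqrt L') + K ≤ 5 * n ^ (1 / 2 - δ / 4) := by
      have h1 := hsv v hv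
      have h2 := hsv L' hL
      have h3 : n ^ (1 / 2 - δ / 2) ≤ n ^ (1 / 2 - δ / 4) := Real.rpow_le_rpow_of_exponent_le hn1 (by linarith)
      have h4 : n ^ (1 / 2 - δ) ≤ n ^ (1 / 2 - δ / 4) := Real.rpow_le_rpow_of_exponent_le hn1 (by linarith)
      linarith
    have t2 : (Real.sqrt ((v : ℝ) * L') / (F + 1) + (Real.sqrt v + Real.sqrt L') + K) * (Real.sqrt ((v : ℝ) * L') * M) ≤ 10 * Z := by
      calc _ ≤ (5 * n ^ (1 / 2 - δ / 4)) * ((2 * n ^ (1 / 2 : ℝ)) * n ^ (δ / 32)) := by gcongr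
        _ = 10 * (n ^ (1 / 2 - δ / 4) * (n ^ (1 / 2 : ℝ) * n ^ (δ / 32))) := by ring
        _ = 10 * Z := by
            rw [← Real.rpow_add hn0, ← Real.rpow_add hn0, hZ]
            congr 2
            ring
    have hl1 : 1 + Real.log K ≤ 2 * Real.log N := by linarith
    have hl2 : (1 + Real.log K) ^ 2 ≤ (2 * Real.log N) ^ 2 := pow_le_pow_left₀ (by linarith) hl1 2
    have hl3 : (1 : ℝ) ≤ 2 * Real.log N := by linarith
    have t4 : M * (2 * (F : ℝ) ^ 2) * (L' * M) + 12 * (1 + Real.log K) *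
        (Real.sqrt ((v : ℝ) * L') / (F + 1) + (Real.sqrt v + Real.sqrt L') + K) * (Real.sqrt ((v : ℝ) * L') * M) +
        2 * M * (L' * M) ≤ (2 * Real.log N) * (150 * Z) := by
      have h5 : 12 * (1 + Real.log K) *
          (Real.sqrt ((v : ℝ) * L') / (F + 1) + (Real.sqrt v + Real.sqrt L') + K) * (Real.sqrt ((v : ℝ) * L') * M) ≤
          12 * (2 * Real.log N) * (10 * Z) := by
        calc _ = 12 * (1 + Real.log K) * ((Real.sqrt ((v : ℝ) * L') / (F + 1) + (Real.sqrt v + Real.sqrt L') + K) * (Real.sqrt ((v : ℝ) * L') * M)) := by ring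
          _ ≤ _ := by gcongr
      have h6 : 4 * Z ≤ (2 * Real.log N) * (4 * Z) := le_mul_of_one_le_left (by positivity) hl3
      nlinarith [mul_nonneg (by linarith : (0 : ℝ) ≤ 2 * Real.log N) hZ0.le]
    calc _ ≤ (2 * Real.log N) ^ 2 * ((2 * Real.log N) * (150 * Z)) := by
          apply mul_le_mul hl2 t4 _ (by positivity)
          positivity
      _ = _ := by rw [hZ]; ring
  refine (sum_Er_le c hc K u v β L L' v L' huv le_rfl le_rfl).trans ?_
  calc _ ≤ ∑ e ∈ c.natAbs.divisors, ∑ g ∈ c.natAbs.divisors, 8 * 150 * Real.log N ^ 3 * n ^ (1 - δ / 4 + δ / 32) :=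
        sum_le_sum fun e he => sum_le_sum fun g hg => key e he g hg
    _ = (8 * 150 * (c.natAbs.divisors.card : ℝ) ^ 2 * Real.log N ^ 3) * n ^ (1 - δ / 4 + δ / 32) := by
        rw [sum_const, sum_const, nsmul_eq_mul, nsmul_eq_mul]
        ring
    _ ≤ n ^ (3 * δ / 32) * n ^ (1 - δ / 4 + δ / 32) := by
        apply mul_le_mul_of_nonneg_right _ (by positivity)
        rw [hn]
        exact hfin
    _ = _ := by
        rw [← Real.rpow_add hn0, hn]
        congr 1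
        ring

end Pool.Agent.V5helper54.DC
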