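import Pool.Agent.V5helper54.DC.S1

/-! The correlation of the truncated sums from above and the quadratic form inequality. -/

set_option autoImplicit false

namespace Pool.Agent.V5helper54.DC
open Finset Filter Topology
open Pool.Agent.TH212.DV (ev_pow ev_log dk_eps dk dk_succ_apply)

theorem count_two (k l h N : ℕ) (hk : 1 ≤ k) (hl : 1 ≤ l) :
    (((Icc 1 N).filter (fun n => k ∣ n ∧ l ∣ n + h)).card : ℝ) ≤ N * gd h k l / (k * l) + 1 := by
  have hkr : (0 : ℝ) < k := by exact_mod_cast hk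
  have hlr : (0 : ℝ) < l := by exact_mod_cast hl
  have h0 : 0 ≤ N * gd h k l / (k * l) := by
    have := gd_nonneg h k l
    positivity
  rcases ((Icc 1 N).filter (fun n => k ∣ n ∧ l ∣ n + h)).eq_empty_or_nonempty with he | ⟨n0, hn0⟩
  · rw [he, card_empty, Nat.cast_zero]
    linarith
  · rw [mem_filter] at hn0
    obtain ⟨-, hk0, hl0⟩ := hn0
    have hg : ((Nat.gcd k l : ℕ) : ℤ) ∣ (h : ℤ) := by
      have h1 : Nat.gcd k l ∣ n0 + h := (Nat.gcd_dvd_right k l).trans hl0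
      have h2 : Nat.gcd k l ∣ n0 := (Nat.gcd_dvd_left k l).trans hk0
      exact_mod_cast (Nat.dvd_add_right h2).1 h1
    have hgd : gd h k l = (Nat.gcd k l : ℝ) := by
      unfold gd
      rw [if_pos hg]
    have hlcm : 0 < Nat.lcm k l := Nat.lcm_pos hk hl
    have hlcmr : (0 : ℝ) < Nat.lcm k l := by exact_mod_cast hlcm
    have e1 : (N : ℝ) * gd h k l / (k * l) = N / Nat.lcm k l := by
      rw [hgd]
      have h3 : (Nat.gcd k l : ℝ) * (Nat.lcm k l : ℝ) = k * l := by exact_mod_cast Nat.gcd_mul_lcm k l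
      rw [← h3]
      have h4 : (Nat.gcd k l : ℝ) ≠ 0 := by
        have := Nat.gcd_pos_of_pos_left l hk
        positivity
      field_simp
    have hsub : (Icc 1 N).filter (fun n => k ∣ n ∧ l ∣ n + h) ⊆ (Ioc 0 N).filter (fun n => n ≡ n0 [MOD Nat.lcm k l]) := by
      intro n hn
      rw [mem_filter, mem_Icc] at hn
      rw [mem_filter, mem_Ioc]
      refine ⟨⟨hn.1.1, hn.1.2⟩, ?_⟩
      have h5 : n ≡ n0 [MOD k] := ((Nat.modEq_zero_iff_dvd.2 hn.2.1).trans (Nat.modEq_zero_iff_dvd.2 hk0).symm)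
      have h6 : n + h ≡ n0 + h [MOD l] := ((Nat.modEq_zero_iff_dvd.2 hn.2.2).trans (Nat.modEq_zero_iff_dvd.2 hl0).symm)
      have h7 : n ≡ n0 [MOD l] := Nat.ModEq.add_right_cancel' h h6
      rw [Nat.modEq_iff_dvd, Int.natCast_dvd] at h5 h7 ⊢
      exact Nat.lcm_dvd h5 h7
    refine (Nat.cast_le.2 (card_le_card hsub)).trans ?_
    rw [e1]
    have h8 := Nat.Ioc_filter_modEq_card 0 N hlcm n0
    have h9 : ((((Ioc 0 N).filter (fun n => n ≡ n0 [MOD Nat.lcm k l])).card : ℤ) : ℝ) ≤ N / Nat.lcm k l + 1 := by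
      rw [h8, Int.cast_max]
      apply max_le
      · push_cast
        have h10 := Int.floor_le (((N : ℚ) - n0) / (Nat.lcm k l : ℚ))
        have h11 := Int.lt_floor_add_one (((0 : ℚ) - n0) / (Nat.lcm k l : ℚ))
        have h12 : ((⌊((N : ℚ) - n0) / (Nat.lcm k l : ℚ)⌋ : ℤ) : ℝ) ≤ ((N : ℝ) - n0) / (Nat.lcm k l : ℝ) := by
          have := (Rat.cast_le (K := ℝ)).2 h10
          push_cast at this
          exact this
        have h13 : ((0 : ℝ) - n0) / (Nat.lcm k l : ℝ) < ((⌊((0 : ℚ) - n0) / (Nat.lcm k l : ℚ)⌋ : ℤ) : ℝ) + 1 := by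
          have := (Rat.cast_lt (K := ℝ)).2 h11
          push_cast at this
          exact this
        have h14 : ((N : ℝ) - n0) / (Nat.lcm k l : ℝ) = N / Nat.lcm k l + ((0 : ℝ) - n0) / (Nat.lcm k l : ℝ) := by ring
        linarith
      · push_cast
        positivity
    exact_mod_cast h9

/-- the truncated divisor sum -/
noncomputable def FA (s K n : ℕ) : ℝ := ∑ k ∈ (Icc 1 K).filter (fun k => k ∣ n), (dk (s + 1) k : ℝ)

theorem FA_nonneg (s K n : ℕ) : 0 ≤ FA s K n := sum_nonneg fun _ _ => Nat.cast_nonneg _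

theorem AA_le (s h N K : ℕ) : ∑ n ∈ Icc 1 N, FA s K n * FA s K (n + h) ≤
    N * DT (dw s) (dw s) h K K + (∑ k ∈ Icc 1 K, (dk (s + 1) k : ℝ)) ^ 2 := by
  have h1 : ∀ n ∈ Icc 1 N, FA s K n * FA s K (n + h) = ∑ k ∈ Icc 1 K, ∑ l ∈ Icc 1 K,
      (dk (s + 1) k : ℝ) * (dk (s + 1) l : ℝ) * (if k ∣ n ∧ l ∣ n + h then 1 else 0) := by
    intro n _
    unfold FA
    rw [sum_mul_sum, sum_filter]
    apply sum_congr rfl
    intro k _
    split_ifs with hk
    · rw [sum_filter]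
      apply sum_congr rfl
      intro l _
      by_cases hl : l ∣ n + h
      · rw [if_pos hl, if_pos ⟨hk, hl⟩, mul_one]
      · rw [if_neg hl, if_neg (fun h' => hl h'.2), mul_zero]
    · symm
      apply sum_eq_zero
      intro l _
      rw [if_neg (fun h' => hk h'.1), mul_zero]
  rw [sum_congr rfl h1, sum_comm]
  have h2 : ∀ k ∈ Icc 1 K, ∑ n ∈ Icc 1 N, ∑ l ∈ Icc 1 K,
      (dk (s + 1) k : ℝ) * (dk (s + 1) l : ℝ) * (if k ∣ n ∧ l ∣ n + h then 1 else 0) ≤
      ∑ l ∈ Icc 1 K, (N * (dw s k * dw s l * gd h k l / (k * l)) + (dk (s + 1) k : ℝ) * (dk (s + 1) l : ℝ)) := by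
    intro k hk
    rw [mem_Icc] at hk
    rw [sum_comm]
    apply sum_le_sum
    intro l hl
    rw [mem_Icc] at hl
    rw [← mul_sum]
    have h3 : ∑ n ∈ Icc 1 N, (if k ∣ n ∧ l ∣ n + h then (1 : ℝ) else 0) ≤ N * gd h k l / (k * l) + 1 := by
      rw [← sum_filter, sum_const, nsmul_eq_mul, mul_one]
      exact count_two k l h N hk.1 hl.1
    calc (dk (s + 1) k : ℝ) * (dk (s + 1) l : ℝ) * ∑ n ∈ Icc 1 N, (if k ∣ n ∧ l ∣ n + h then (1 : ℝ) else 0) ≤
        (dk (s + 1) k : ℝ) * (dk (s + 1) l : ℝ) * (N * gd h k l / (k * l) + 1) := by gcongr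
      _ = _ := by unfold dw; ring
  refine (sum_le_sum h2).trans (le_of_eq ?_)
  simp_rw [sum_add_distrib]
  congr 1
  · unfold DT
    rw [mul_sum]
    apply sum_congr rfl
    intro k _
    rw [mul_sum]
  · rw [pow_two, sum_mul_sum]

theorem FA_le (s K n : ℕ) (hn : 1 ≤ n) : FA s K n ≤ dk (s + 2) n := by
  unfold FA
  rw [dk_succ_apply]
  push_cast
  apply sum_le_sum_of_subset_of_nonneg
  · intro k hk
    rw [mem_filter] at hk
    exact Nat.mem_divisors.2 ⟨hk.2, by omega⟩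
  · exact fun _ _ _ => Nat.cast_nonneg _

theorem FA_minor (s K n : ℕ) (hK : 1 ≤ K) (hn : K * K < n) : ((s : ℝ) + 2) * FA s K n ≤ dk (s + 2) n := by
  have h1 := SA_le (s + 1) K n hK hn
  unfold FA
  have h2 : (((s + 1 + 1) * ∑ k ∈ (Icc 1 K).filter (fun k => k ∣ n), dk (s + 1) k : ℕ) : ℝ) ≤ ((dk (s + 1 + 1) n : ℕ) : ℝ) := by
    exact_mod_cast h1
  push_cast at h2
  calc ((s : ℝ) + 2) * ∑ k ∈ (Icc 1 K).filter (fun k => k ∣ n), (dk (s + 1) k : ℝ) =
      ((s : ℝ) + 1 + 1) * ∑ k ∈ (Icc 1 K).filter (fun k => k ∣ n), (dk (s + 1) k : ℝ) := by ring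
    _ ≤ _ := h2

/-- the correlation sum -/
noncomputable def DD (s N h : ℕ) : ℝ := ∑ n ∈ Icc 1 N, (dk (s + 2) n : ℝ) * dk (s + 2) (n + h)

theorem SS_pos_eq (s h N K : ℕ) : SS s (h : ℤ) N K = ∑ n ∈ Icc 1 N, (dk (s + 2) n : ℝ) * FA s K (n + h) := by
  unfold SS FA
  apply sum_congr rfl
  intro n _
  congr 2
  apply filter_congr
  intro k _
  exact_mod_cast Iff.rfl

theorem SS_neg_le (s h N K : ℕ) (M : ℝ) (hM0 : 0 ≤ M) (hM : ∀ m, m ≤ N + h + K → (dk (s + 2) m : ℝ) ≤ M)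
    (hM' : ∀ m, m ≤ N + h + K → (dk (s + 1) m : ℝ) ≤ M) :
    SS s (-(h : ℤ)) N K ≤ ∑ n ∈ Icc 1 N, FA s K n * (dk (s + 2) (n + h) : ℝ) + h * (M * (K * M)) := by
  have e1 : ∑ n ∈ Icc 1 N, FA s K n * (dk (s + 2) (n + h) : ℝ) = ∑ m ∈ Ioc h (N + h), FA s K (m - h) * (dk (s + 2) m : ℝ) := by
    have e0 : Ioc h (N + h) = (Icc 1 N).image (fun n => n + h) := by
      ext m
      rw [mem_image, mem_Ioc]
      constructor
      · intro h1
        exact ⟨m - h, by rw [mem_Icc]; omega, by omega⟩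
      · rintro ⟨n, hn, rfl⟩
        rw [mem_Icc] at hn
        omega
    rw [e0, sum_image (by intro a _ b _ hab; simpa using hab)]
    apply sum_congr rfl
    intro n _
    rw [Nat.add_sub_cancel]
  rw [e1]
  unfold SS
  have h1 : ∀ m ∈ Icc 1 N, (dk (s + 2) m : ℝ) * ∑ k ∈ (Icc 1 K).filter (fun k : ℕ => (k : ℤ) ∣ (m : ℤ) + -(h : ℤ)), (dk (s + 1) k : ℝ) ≤
      (if h < m then FA s K (m - h) * (dk (s + 2) m : ℝ) else 0) + (if m ≤ h then M * (K * M) else 0) := by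
    intro m hm
    rw [mem_Icc] at hm
    by_cases hmh : h < m
    · rw [if_pos hmh, if_neg (by omega), add_zero, mul_comm]
      apply le_of_eq
      congr 1
      unfold FA
      apply sum_congr _ (fun _ _ => rfl)
      apply filter_congr
      intro k _
      have : (m : ℤ) + -(h : ℤ) = ((m - h : ℕ) : ℤ) := by omega
      rw [this]
      exact_mod_cast Iff.rfl
    · rw [if_neg hmh, if_pos (by omega), zero_add]
      have h2 : ∑ k ∈ (Icc 1 K).filter (fun k : ℕ => (k : ℤ) ∣ (m : ℤ) + -(h : ℤ)), (dk (s + 1) k : ℝ) ≤ K * M := by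
        calc _ ≤ ∑ k ∈ Icc 1 K, (dk (s + 1) k : ℝ) := sum_le_sum_of_subset_of_nonneg (filter_subset _ _) (fun _ _ _ => Nat.cast_nonneg _)
          _ ≤ ∑ _k ∈ Icc 1 K, M := sum_le_sum fun k hk => hM' k (by rw [mem_Icc] at hk; omega)
          _ = _ := by rw [sum_const, Nat.card_Icc, nsmul_eq_mul, Nat.add_sub_cancel]
      exact mul_le_mul (hM m (by omega)) h2 (sum_nonneg fun _ _ => Nat.cast_nonneg _) hM0
  refine (sum_le_sum h1).trans ?_
  rw [sum_add_distrib]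
  apply add_le_add
  · rw [← sum_filter]
    apply sum_le_sum_of_subset_of_nonneg
    · intro m hm
      rw [mem_filter, mem_Icc] at hm
      rw [mem_Ioc]
      omega
    · intro m _ _
      exact mul_nonneg (FA_nonneg _ _ _) (Nat.cast_nonneg _)
  · rw [← sum_filter, sum_const, nsmul_eq_mul]
    apply mul_le_mul_of_nonneg_right _ (by positivity)
    have : ((Icc 1 N).filter (fun m => m ≤ h)).card ≤ h := by
      calc _ ≤ (Icc 1 h).card := by
            apply card_le_card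
            intro m hm
            rw [mem_filter, mem_Icc] at hm
            rw [mem_Icc]
            omega
        _ = h := by rw [Nat.card_Icc, Nat.add_sub_cancel]
    exact_mod_cast this

/-- the quadratic form inequality -/
theorem DD_quad (s h N K : ℕ) (hK : 1 ≤ K) (hKN : K * K ≤ N) (M : ℝ) (hM0 : 0 ≤ M) (hM : ∀ m, m ≤ N + h + K → (dk (s + 2) m : ℝ) ≤ M)
    (hM' : ∀ m, m ≤ N + h + K → (dk (s + 1) m : ℝ) ≤ M) :
    ((s : ℝ) + 2) * (SS s (h : ℤ) N K + SS s (-(h : ℤ)) N K) - ((s : ℝ) + 2) ^ 2 * (N * DT (dw s) (dw s) h K K) -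
      (((s : ℝ) + 2) * (2 * (K * K * (M * M)) + h * (M * (K * M))) + ((s : ℝ) + 2) ^ 2 * (K * M) ^ 2) ≤ DD s N h := by
  obtain ⟨r, hr⟩ : ∃ r : ℝ, r = (s : ℝ) + 2 := ⟨_, rfl⟩
  have hr0 : 0 ≤ r := by rw [hr]; positivity
  rw [← hr]
  have hsplit : ∀ f : ℕ → ℝ, ∑ n ∈ Icc 1 N, f n = ∑ n ∈ Icc 1 (K * K), f n + ∑ n ∈ Ioc (K * K) N, f n := by
    intro f
    rw [Icc_eq_Ioc, Icc_eq_Ioc, sum_Ioc_consecutive _ (Nat.zero_le _) hKN]
  have h1 : ∑ n ∈ Ioc (K * K) N, (r * ((dk (s + 2) n : ℝ) * FA s K (n + h)) + r * (FA s K n * (dk (s + 2) (n + h) : ℝ)) -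
      r ^ 2 * (FA s K n * FA s K (n + h))) ≤ DD s N h := by
    unfold DD
    rw [hsplit (fun n => (dk (s + 2) n : ℝ) * dk (s + 2) (n + h))]
    have h2 : (0 : ℝ) ≤ ∑ n ∈ Icc 1 (K * K), (dk (s + 2) n : ℝ) * dk (s + 2) (n + h) := sum_nonneg fun _ _ => by positivity
    have h3 : ∑ n ∈ Ioc (K * K) N, (r * ((dk (s + 2) n : ℝ) * FA s K (n + h)) + r * (FA s K n * (dk (s + 2) (n + h) : ℝ)) -
      r ^ 2 * (FA s K n * FA s K (n + h))) ≤ ∑ n ∈ Ioc (K * K) N, (dk (s + 2) n : ℝ) * dk (s + 2) (n + h) := by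
      apply sum_le_sum
      intro n hn
      rw [mem_Ioc] at hn
      have g1 := FA_minor s K n hK hn.1
      have g2 := FA_minor s K (n + h) hK (by omega)
      rw [← hr] at g1 g2
      nlinarith [mul_nonneg (sub_nonneg.2 g1) (sub_nonneg.2 g2)]
    linarith
  refine le_trans ?_ h1
  rw [sum_sub_distrib, sum_add_distrib, ← mul_sum, ← mul_sum, ← mul_sum]
  have h4 : SS s (h : ℤ) N K - K * K * (M * M) ≤ ∑ n ∈ Ioc (K * K) N, (dk (s + 2) n : ℝ) * FA s K (n + h) := by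
    rw [SS_pos_eq, hsplit (fun n => (dk (s + 2) n : ℝ) * FA s K (n + h))]
    have h5 : ∑ n ∈ Icc 1 (K * K), (dk (s + 2) n : ℝ) * FA s K (n + h) ≤ K * K * (M * M) := by
      calc _ ≤ ∑ _n ∈ Icc 1 (K * K), M * M := by
            apply sum_le_sum
            intro n hn
            rw [mem_Icc] at hn
            exact mul_le_mul (hM n (by omega)) ((FA_le s K (n + h) (by omega)).trans (hM (n + h) (by omega))) (FA_nonneg _ _ _) hM0
        _ = _ := by rw [sum_const, Nat.card_Icc, nsmul_eq_mul, Nat.add_sub_cancel]; push_cast; ring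
    linarith
  have h6 : SS s (-(h : ℤ)) N K - h * (M * (K * M)) - K * K * (M * M) ≤ ∑ n ∈ Ioc (K * K) N, FA s K n * (dk (s + 2) (n + h) : ℝ) := by
    have h7 := SS_neg_le s h N K M hM0 hM hM'
    rw [hsplit (fun n => FA s K n * (dk (s + 2) (n + h) : ℝ))] at h7
    have h5 : ∑ n ∈ Icc 1 (K * K), FA s K n * (dk (s + 2) (n + h) : ℝ) ≤ K * K * (M * M) := by
      calc _ ≤ ∑ _n ∈ Icc 1 (K * K), M * M := by
            apply sum_le_sum
            intro n hn
            rw [mem_Icc] at hn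
            exact mul_le_mul ((FA_le s K n (by omega)).trans (hM n (by omega))) (hM (n + h) (by omega)) (Nat.cast_nonneg _) hM0
        _ = _ := by rw [sum_const, Nat.card_Icc, nsmul_eq_mul, Nat.add_sub_cancel]; push_cast; ring
    linarith
  have h8 : ∑ n ∈ Ioc (K * K) N, FA s K n * FA s K (n + h) ≤ N * DT (dw s) (dw s) h K K + (K * M) ^ 2 := by
    have h9 := AA_le s h N K
    rw [hsplit (fun n => FA s K n * FA s K (n + h))] at h9
    have h10 : 0 ≤ ∑ n ∈ Icc 1 (K * K), FA s K n * FA s K (n + h) := sum_nonneg fun _ _ => mul_nonneg (FA_nonneg _ _ _) (FA_nonneg _ _ _)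
    have h11 : (∑ k ∈ Icc 1 K, (dk (s + 1) k : ℝ)) ^ 2 ≤ (K * M) ^ 2 := by
      apply pow_le_pow_left₀ (sum_nonneg fun _ _ => Nat.cast_nonneg _)
      calc _ ≤ ∑ _k ∈ Icc 1 K, M := sum_le_sum fun k hk => hM' k (by rw [mem_Icc] at hk; omega)
        _ = _ := by rw [sum_const, Nat.card_Icc, nsmul_eq_mul, Nat.add_sub_cancel]
    linarith
  have h12 := mul_le_mul_of_nonneg_left h4 hr0
  have h13 := mul_le_mul_of_nonneg_left h6 hr0
  have h14 := mul_le_mul_of_nonneg_left h8 (by positivity : 0 ≤ r ^ 2)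
  linarith

end Pool.Agent.V5helper54.DC
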