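import Pool.Agent.V5helper54.DC.E1
import Pool.Agent.TH212.DV.C17
import Pool.Agent.TH212.DV.C18

/-! The lower bound for the correlations of the divisor functions with a fixed shift. -/

set_option autoImplicit false

namespace Pool.Agent.V5helper54.DC
open Finset Filter Topology
open Pool.Agent.TH212.DV (ev_pow ev_log dk_eps dk dk_succ_apply Sing sing_pos)

theorem log_cast_atTop : Tendsto (fun N : ℕ => Real.log (N : ℝ)) atTop atTop :=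
  Real.tendsto_log_atTop.comp tendsto_natCast_atTop_atTop

theorem floor_atTop (α : ℝ) (hα : 0 < α) : Tendsto (fun N : ℕ => ⌊(N : ℝ) ^ α⌋₊) atTop atTop :=
  tendsto_nat_floor_atTop.comp ((tendsto_rpow_atTop hα).comp tendsto_natCast_atTop_atTop)

theorem log_floor (α : ℝ) (hα : 0 < α) :
    Tendsto (fun N : ℕ => Real.log (⌊(N : ℝ) ^ α⌋₊ : ℝ) / Real.log N) atTop (𝓝 α) := by
  have hpow : Tendsto (fun N : ℕ => (N : ℝ) ^ α) atTop atTop := (tendsto_rpow_atTop hα).comp tendsto_natCast_atTop_atTop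
  have h1 : Tendsto (fun N : ℕ => α - Real.log 2 / Real.log (N : ℝ)) atTop (𝓝 (α - 0)) :=
    tendsto_const_nhds.sub (tendsto_const_nhds.div_atTop log_cast_atTop)
  rw [sub_zero] at h1
  apply tendsto_of_tendsto_of_tendsto_of_le_of_le' h1 tendsto_const_nhds
  · filter_upwards [hpow.eventually_ge_atTop 2, log_cast_atTop.eventually_gt_atTop 0, eventually_ge_atTop 1] with N h2 h3 h4
    have hN : (0 : ℝ) < N := by exact_mod_cast h4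
    have h5 : (N : ℝ) ^ α / 2 ≤ (⌊(N : ℝ) ^ α⌋₊ : ℝ) := by
      have := Nat.lt_floor_add_one ((N : ℝ) ^ α)
      linarith
    have h6 : Real.log ((N : ℝ) ^ α / 2) ≤ Real.log (⌊(N : ℝ) ^ α⌋₊ : ℝ) := Real.log_le_log (by positivity) h5
    rw [Real.log_div (by positivity) (by norm_num), Real.log_rpow hN] at h6
    rw [le_div_iff₀ h3, sub_mul, div_mul_cancel₀ _ h3.ne']
    exact h6
  · filter_upwards [hpow.eventually_ge_atTop 2, log_cast_atTop.eventually_gt_atTop 0, eventually_ge_atTop 1] with N h2 h3 h4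
    have hN : (0 : ℝ) < N := by exact_mod_cast h4
    have h5 : (⌊(N : ℝ) ^ α⌋₊ : ℝ) ≤ (N : ℝ) ^ α := Nat.floor_le (by positivity)
    have h7 : (0 : ℝ) < (⌊(N : ℝ) ^ α⌋₊ : ℝ) := by
      have := Nat.lt_floor_add_one ((N : ℝ) ^ α)
      linarith
    have h6 : Real.log (⌊(N : ℝ) ^ α⌋₊ : ℝ) ≤ Real.log ((N : ℝ) ^ α) := Real.log_le_log h7 h5
    rw [Real.log_rpow hN] at h6
    rw [div_le_iff₀ h3]
    exact h6

theorem DT_lim (s : ℕ) (c : ℤ) (hc : c ≠ 0) (α β : ℝ) (hα : 0 < α) (hβ : 0 < β) :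
    Tendsto (fun N : ℕ => DT (dw s) (dw s) c ⌊(N : ℝ) ^ α⌋₊ ⌊(N : ℝ) ^ β⌋₊ / Real.log N ^ (2 * (s + 1))) atTop
      (𝓝 (Sing (s + 1) c.natAbs / ((s + 1).factorial : ℝ) ^ 2 * (α ^ (s + 1) * β ^ (s + 1)))) := by
  have h1 : Tendsto (fun N : ℕ => (⌊(N : ℝ) ^ α⌋₊, ⌊(N : ℝ) ^ β⌋₊)) atTop (atTop ×ˢ atTop) :=
    (floor_atTop α hα).prodMk (floor_atTop β hβ)
  have h2 := ((DT_tendsto s c hc).comp h1).mul (((log_floor α hα).pow (s + 1)).mul ((log_floor β hβ).pow (s + 1)))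
  refine h2.congr' ?_
  filter_upwards [log_cast_atTop.eventually_gt_atTop 0, (log_cast_atTop.comp (floor_atTop α hα)).eventually_gt_atTop 0,
    (log_cast_atTop.comp (floor_atTop β hβ)).eventually_gt_atTop 0] with N g1 g2 g3
  simp only [Function.comp] at g2 g3 ⊢
  rw [div_pow, div_pow]
  have e : Real.log (N : ℝ) ^ (2 * (s + 1)) = Real.log N ^ (s + 1) * Real.log N ^ (s + 1) := by rw [← pow_add]; congr 1; ring
  rw [e]
  field_simp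

/-- the constant -/
noncomputable def cr (s : ℕ) : ℝ := 1 - (1 - ((s : ℝ) + 2) / 2 ^ (s + 1)) ^ 2

/-- the function of the parameter -/
noncomputable def ph (s : ℕ) (δ : ℝ) : ℝ :=
  ((s : ℝ) + 2) / (1 + δ) * (2 * ((1 / 2 - δ) ^ (s + 1) * (1 - 2 * δ) ^ (s + 1) - (1 / 2 - δ) ^ (s + 1) * δ ^ (s + 1))) -
    ((s : ℝ) + 2) ^ 2 * ((1 / 2 - δ) ^ (s + 1) * (1 / 2 - δ) ^ (s + 1))

theorem ph_zero (s : ℕ) : ph s 0 = cr s := by
  unfold ph cr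
  rw [zero_pow (Nat.succ_ne_zero s)]
  simp only [sub_zero, mul_zero, add_zero, div_one, one_pow, mul_one]
  rw [one_div, inv_pow]
  have : (2 : ℝ) ^ (s + 1) ≠ 0 := by positivity
  field_simp
  ring

theorem exists_delta (s : ℕ) (ε : ℝ) (hε : 0 < ε) : ∃ δ : ℝ, 0 < δ ∧ δ ≤ 1 / 4 ∧ cr s - ε < ph s δ := by
  have hcont : ContinuousAt (ph s) 0 := by
    unfold ph
    fun_prop (disch := norm_num)
  have h1 : Tendsto (ph s) (𝓝[>] 0) (𝓝 (cr s)) := by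
    rw [← ph_zero]
    exact hcont.tendsto.mono_left nhdsWithin_le_nhds
  have h2 : ∀ᶠ δ in 𝓝[>] (0 : ℝ), cr s - ε < ph s δ := h1.eventually (lt_mem_nhds (by linarith))
  have h3 : ∀ᶠ δ in 𝓝[>] (0 : ℝ), δ ∈ Set.Ioc (0 : ℝ) (1 / 4) := Ioc_mem_nhdsGT (by norm_num)
  obtain ⟨δ, h4, h5⟩ := (h2.and h3).exists
  exact ⟨δ, h5.1, h5.2, h4⟩

/-- the main lower bound -/
theorem DD_lower (s h : ℕ) (hh : 1 ≤ h) (ε : ℝ) (hε : 0 < ε) :
    ∀ᶠ N : ℕ in atTop, (cr s - ε) * (Sing (s + 1) h / ((s + 1).factorial : ℝ) ^ 2) * (N * Real.log N ^ (2 * (s + 1))) ≤ DD s N h := by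
  obtain ⟨δ, hδ, hδ4, hph⟩ := exists_delta s ε hε
  obtain ⟨S, hS⟩ : ∃ S : ℝ, S = Sing (s + 1) h / ((s + 1).factorial : ℝ) ^ 2 := ⟨_, rfl⟩
  have hS0 : 0 < S := by
    obtain ⟨c, hc, h1⟩ := sing_pos s
    have := h1 h hh
    rw [hS]
    have h2 : 0 < Sing (s + 1) h := lt_of_lt_of_le hc this
    positivity
  have hhz : (h : ℤ) ≠ 0 := by exact_mod_cast (by omega : h ≠ 0)
  have hhz' : (-(h : ℤ)) ≠ 0 := neg_ne_zero.2 hhz
  obtain ⟨N₁, hN₁, hA⟩ := SS_lower s (h : ℤ) hhz δ hδ (by linarith)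
  obtain ⟨N₂, hN₂, hB⟩ := SS_lower s (-(h : ℤ)) hhz' δ hδ (by linarith)
  obtain ⟨N₃, hN₃, hd2⟩ := dk_big (s + 2) (δ / 8) (by positivity)
  obtain ⟨N₄, hN₄, hd1⟩ := dk_big (s + 1) (δ / 8) (by positivity)
  obtain ⟨r, hr⟩ : ∃ r : ℝ, r = (s : ℝ) + 2 := ⟨_, rfl⟩
  have hr0 : 0 ≤ r := by rw [hr]; positivity
  obtain ⟨C, hC⟩ : ∃ C : ℝ, C = 4 * r + r * h + r ^ 2 := ⟨_, rfl⟩
  -- the limit
  have hα : 0 < 1 / 2 - δ := by linarith
  have hβ : 0 < 1 - 2 * δ := by linarith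
  have l1 := DT_lim s h hhz (1 / 2 - δ) (1 - 2 * δ) hα hβ
  have l2 := DT_lim s h hhz (1 / 2 - δ) δ hα hδ
  have l3 := DT_lim s (-(h : ℤ)) hhz' (1 / 2 - δ) (1 - 2 * δ) hα hβ
  have l4 := DT_lim s (-(h : ℤ)) hhz' (1 / 2 - δ) δ hα hδ
  have l5 := DT_lim s h hhz (1 / 2 - δ) (1 / 2 - δ) hα hα
  rw [Int.natAbs_natCast, ← hS] at l1 l2 l5
  rw [Int.natAbs_neg, Int.natAbs_natCast, ← hS] at l3 l4
  have l6 : Tendsto (fun N : ℕ => C * (N : ℝ) ^ (-(δ / 32))) atTop (𝓝 (C * 0)) :=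
    ((tendsto_rpow_neg_atTop (by positivity)).comp tendsto_natCast_atTop_atTop).const_mul C
  have lim := (((((l1.sub l2).add (l3.sub l4)).const_mul (r / (1 + δ))).sub (l5.const_mul (r ^ 2))).sub l6)
  have hval : r / (1 + δ) * (S * ((1 / 2 - δ) ^ (s + 1) * (1 - 2 * δ) ^ (s + 1)) - S * ((1 / 2 - δ) ^ (s + 1) * δ ^ (s + 1)) +
      (S * ((1 / 2 - δ) ^ (s + 1) * (1 - 2 * δ) ^ (s + 1)) - S * ((1 / 2 - δ) ^ (s + 1) * δ ^ (s + 1)))) -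
      r ^ 2 * (S * ((1 / 2 - δ) ^ (s + 1) * (1 / 2 - δ) ^ (s + 1))) - C * 0 = S * ph s δ := by
    unfold ph
    rw [← hr]
    ring
  rw [hval] at lim
  have hlt : S * (cr s - ε) < S * ph s δ := mul_lt_mul_of_pos_left hph hS0
  have hev := lim.eventually (lt_mem_nhds hlt)
  filter_upwards [hev, eventually_ge_atTop (max (max N₁ N₂) (max N₃ N₄)), eventually_ge_atTop (h + 3),
    log_cast_atTop.eventually_ge_atTop 1, (floor_atTop (1 / 2 - δ) hα).eventually_ge_atTop (1 : ℕ),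
    (floor_atTop (1 / 2 - δ) hα).eventually_ge_atTop (h + 1)] with N k1 k2 k3 k4 k5 k6
  have g1 : N₁ ≤ N := ((le_max_left _ _).trans (le_max_left _ _)).trans k2
  have g2 : N₂ ≤ N := ((le_max_right _ _).trans (le_max_left _ _)).trans k2
  have g3 : N₃ ≤ N := ((le_max_left _ _).trans (le_max_right _ _)).trans k2
  have g4 : N₄ ≤ N := ((le_max_right _ _).trans (le_max_right _ _)).trans k2
  have hN1 : 1 ≤ N := by omega
  have hn1 : (1 : ℝ) ≤ N := by exact_mod_cast hN1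
  have hn0 : (0 : ℝ) < N := by linarith
  obtain ⟨K, hK⟩ : ∃ K : ℕ, K = ⌊(N : ℝ) ^ (1 / 2 - δ)⌋₊ := ⟨_, rfl⟩
  rw [← hK] at k5 k6
  simp only [← hK] at k1
  have hKr : (K : ℝ) ≤ (N : ℝ) ^ (1 / 2 - δ) := by rw [hK]; exact Nat.floor_le (by positivity)
  have hKK : (K : ℝ) * K ≤ (N : ℝ) ^ (1 - 2 * δ) := by
    calc (K : ℝ) * K ≤ (N : ℝ) ^ (1 / 2 - δ) * (N : ℝ) ^ (1 / 2 - δ) := mul_le_mul hKr hKr (Nat.cast_nonneg _) (by positivity)
      _ = _ := by rw [← Real.rpow_add hn0]; congr 1; ring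
  have hKKN : K * K ≤ N := by
    have h1 : (K : ℝ) * K ≤ N := by
      refine hKK.trans ?_
      conv_rhs => rw [← Real.rpow_one (N : ℝ)]
      exact Real.rpow_le_rpow_of_exponent_le hn1 (by linarith)
    exact_mod_cast h1
  have hhK : h ≤ K := by omega
  have h2K : h + K ≤ N := by
    have : (h + 1) * K ≤ K * K := Nat.mul_le_mul_right _ k6
    have h5 : h + K ≤ (h + 1) * K := by
      have : h * 1 ≤ h * K := Nat.mul_le_mul_left _ k5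
      calc h + K = h * 1 + K := by ring
        _ ≤ h * K + K := by omega
        _ = _ := by ring
    omega
  obtain ⟨M, hM⟩ : ∃ M : ℝ, M = (N : ℝ) ^ (δ / 4) := ⟨_, rfl⟩
  have hM0 : 0 ≤ M := by rw [hM]; positivity
  have hMtwo : (((2 * N : ℕ) : ℝ)) ^ (δ / 8) ≤ M := by
    rw [hM]
    calc (((2 * N : ℕ) : ℝ)) ^ (δ / 8) ≤ ((N : ℝ) ^ (2 : ℝ)) ^ (δ / 8) := by
          apply Real.rpow_le_rpow (by positivity) _ (by positivity)
          rw [Real.rpow_two]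
          push_cast
          have : (2 : ℝ) ≤ N := by
            have : 2 ≤ N := by omega
            exact_mod_cast this
          nlinarith
      _ = _ := by rw [← Real.rpow_mul hn0.le]; congr 1; ring
  have hb2 : ∀ m, m ≤ N + h + K → (dk (s + 2) m : ℝ) ≤ M := fun m hm =>
    (hd2 (2 * N) (by omega) m (by omega)).trans hMtwo
  have hb1 : ∀ m, m ≤ N + h + K → (dk (s + 1) m : ℝ) ≤ M := fun m hm =>
    (hd1 (2 * N) (by omega) m (by omega)).trans hMtwo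
  have q1 := DD_quad s h N K k5 hKKN M hM0 hb2 hb1
  have q2 := hA N g1 K hKr
  have q3 := hB N g2 K hKr
  rw [← hr] at q1
  -- the errors
  have hKM : (K : ℝ) * K * (M * M) ≤ (N : ℝ) ^ (1 - δ / 32) := by
    calc (K : ℝ) * K * (M * M) ≤ (N : ℝ) ^ (1 - 2 * δ) * ((N : ℝ) ^ (δ / 4) * (N : ℝ) ^ (δ / 4)) := by
          rw [hM]
          gcongr
      _ = (N : ℝ) ^ (1 - 2 * δ + (δ / 4 + δ / 4)) := by rw [← Real.rpow_add hn0, ← Real.rpow_add hn0]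
      _ ≤ _ := Real.rpow_le_rpow_of_exponent_le hn1 (by linarith)
  have hKM2 : M * (K * M) ≤ (N : ℝ) ^ (1 - δ / 32) := by
    refine le_trans ?_ hKM
    have h1 : (1 : ℝ) ≤ K := by exact_mod_cast k5
    have h2 : 0 ≤ (K : ℝ) * (M * M) := by positivity
    calc M * (K * M) = 1 * (K * (M * M)) := by ring
      _ ≤ K * (K * (M * M)) := mul_le_mul_of_nonneg_right h1 h2
      _ = _ := by ring
  obtain ⟨Z, hZ⟩ : ∃ Z : ℝ, Z = (N : ℝ) ^ (1 - δ / 32) := ⟨_, rfl⟩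
  rw [← hZ] at hKM hKM2 q2 q3
  have hZN : Z = N * (N : ℝ) ^ (-(δ / 32)) := by
    rw [hZ, sub_eq_add_neg, Real.rpow_add hn0, Real.rpow_one]
  obtain ⟨Lg, hLg⟩ : ∃ Lg : ℝ, Lg = Real.log N ^ (2 * (s + 1)) := ⟨_, rfl⟩
  have hLg1 : 1 ≤ Lg := by rw [hLg]; exact one_le_pow₀ k4
  have hLg0 : 0 < Lg := by linarith
  rw [← hLg] at k1 ⊢
  have herr : r * (2 * (K * K * (M * M)) + h * (M * (K * M))) + r ^ 2 * (K * M) ^ 2 ≤ (2 * r + r * h + r ^ 2) * Z := by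
    have h1 : r * (2 * (K * K * (M * M)) + h * (M * (K * M))) ≤ r * (2 * Z + h * Z) := by gcongr
    have h2 : r ^ 2 * (K * M) ^ 2 ≤ r ^ 2 * Z := by
      apply mul_le_mul_of_nonneg_left _ (by positivity)
      calc (K * M) ^ 2 = K * K * (M * M) := by ring
        _ ≤ Z := hKM
    calc _ ≤ r * (2 * Z + h * Z) + r ^ 2 * Z := add_le_add h1 h2
      _ = _ := by ring
  obtain ⟨x1, hx1⟩ : ∃ x : ℝ, x = DT (dw s) (dw s) (h : ℤ) K ⌊(N : ℝ) ^ (1 - 2 * δ)⌋₊ := ⟨_, rfl⟩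
  obtain ⟨x2, hx2⟩ : ∃ x : ℝ, x = DT (dw s) (dw s) (h : ℤ) K ⌊(N : ℝ) ^ δ⌋₊ := ⟨_, rfl⟩
  obtain ⟨x3, hx3⟩ : ∃ x : ℝ, x = DT (dw s) (dw s) (-(h : ℤ)) K ⌊(N : ℝ) ^ (1 - 2 * δ)⌋₊ := ⟨_, rfl⟩
  obtain ⟨x4, hx4⟩ : ∃ x : ℝ, x = DT (dw s) (dw s) (-(h : ℤ)) K ⌊(N : ℝ) ^ δ⌋₊ := ⟨_, rfl⟩
  obtain ⟨x5, hx5⟩ : ∃ x : ℝ, x = DT (dw s) (dw s) (h : ℤ) K K := ⟨_, rfl⟩
  rw [← hx1, ← hx2, ← hx3, ← hx4, ← hx5] at k1
  rw [← hx1, ← hx2] at q2
  rw [← hx3, ← hx4] at q3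
  rw [← hx5] at q1
  have hfin : N * (r / (1 + δ) * (x1 - x2 + (x3 - x4)) - r ^ 2 * x5) - C * Z ≤ DD s N h := by
    have h1 := mul_le_mul_of_nonneg_left (add_le_add q2 q3) hr0
    have h2 : r * (N / (1 + δ) * (x1 - x2) - Z + (N / (1 + δ) * (x3 - x4) - Z)) =
        N * (r / (1 + δ) * (x1 - x2 + (x3 - x4))) - 2 * r * Z := by ring
    rw [h2] at h1
    rw [hC]
    linarith
  have h5 : S * (cr s - ε) * Lg ≤ (r / (1 + δ) * (x1 - x2 + (x3 - x4)) - r ^ 2 * x5) - C * (N : ℝ) ^ (-(δ / 32)) := by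
    have h6 : r / (1 + δ) * (x1 / Lg - x2 / Lg + (x3 / Lg - x4 / Lg)) - r ^ 2 * (x5 / Lg) - C * (N : ℝ) ^ (-(δ / 32)) ≤
        ((r / (1 + δ) * (x1 - x2 + (x3 - x4)) - r ^ 2 * x5) - C * (N : ℝ) ^ (-(δ / 32))) / Lg := by
      have e : ((r / (1 + δ) * (x1 - x2 + (x3 - x4)) - r ^ 2 * x5) - C * (N : ℝ) ^ (-(δ / 32))) / Lg =
          r / (1 + δ) * (x1 / Lg - x2 / Lg + (x3 / Lg - x4 / Lg)) - r ^ 2 * (x5 / Lg) - C * (N : ℝ) ^ (-(δ / 32)) / Lg := by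
        field_simp
      rw [e]
      have hC0 : 0 ≤ C := by rw [hC]; positivity
      have : C * (N : ℝ) ^ (-(δ / 32)) / Lg ≤ C * (N : ℝ) ^ (-(δ / 32)) := div_le_self (by positivity) hLg1
      linarith
    have h7 := k1.le.trans h6
    rw [le_div_iff₀ hLg0] at h7
    exact h7
  calc (cr s - ε) * (Sing (s + 1) h / ((s + 1).factorial : ℝ) ^ 2) * (N * Lg) = N * (S * (cr s - ε) * Lg) := by rw [← hS]; ring
    _ ≤ N * ((r / (1 + δ) * (x1 - x2 + (x3 - x4)) - r ^ 2 * x5) - C * (N : ℝ) ^ (-(δ / 32))) := mul_le_mul_of_nonneg_left h5 hn0.le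
    _ = N * (r / (1 + δ) * (x1 - x2 + (x3 - x4)) - r ^ 2 * x5) - C * Z := by rw [hZN]; ring
    _ ≤ _ := hfin

end Pool.Agent.V5helper54.DC
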