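import Pool.Agent.V5helper54.DC.B4

/-! A lower bound for the sum of `d_r` over residue classes. -/

set_option autoImplicit false

namespace Pool.Agent.V5helper54.DC
open Finset Filter Topology
open Pool.Agent.H398R2.BV (hyperC)
open Pool.Agent.TH212.DV (ev_pow ev_log dk_eps dk dk_succ_apply)

theorem dk_big (s : ℕ) (η : ℝ) (hη : 0 < η) : ∃ N₀ : ℕ, 1 ≤ N₀ ∧ ∀ N : ℕ, N₀ ≤ N → ∀ m : ℕ, m ≤ N → (dk s m : ℝ) ≤ (N : ℝ) ^ η := by
  obtain ⟨C, hC, h⟩ := dk_eps s (η / 2) (by positivity)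
  obtain ⟨N₀, hN⟩ := ev_pow 0 C (η / 2) (by positivity)
  refine ⟨max N₀ 1, le_max_right _ _, fun N hN0 m hmN => ?_⟩
  have h1 := hN N ((le_max_left _ _).trans hN0)
  rw [pow_zero, mul_one] at h1
  have hN1 : 1 ≤ N := (le_max_right _ _).trans hN0
  have hNr : (0 : ℝ) < N := by exact_mod_cast hN1
  have hmN' : (m : ℝ) ≤ N := by exact_mod_cast hmN
  rcases Nat.eq_zero_or_pos m with hm | hm
  · rw [hm, ArithmeticFunction.map_zero, Nat.cast_zero]
    positivity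
  · calc (dk s m : ℝ) ≤ C * (m : ℝ) ^ (η / 2) := h m hm
      _ ≤ (N : ℝ) ^ (η / 2) * (N : ℝ) ^ (η / 2) :=
          mul_le_mul h1 (Real.rpow_le_rpow (Nat.cast_nonneg _) hmN' (by positivity)) (by positivity) (by positivity)
      _ = _ := by rw [← Real.rpow_add hNr]; congr 1; ring

/-- the division points -/
noncomputable def Lf (δ : ℝ) (N J j : ℕ) : ℕ := ⌊(N : ℝ) ^ (δ + (1 - 3 * δ) * j / J)⌋₊

theorem Lf_zero (δ : ℝ) (N J : ℕ) : Lf δ N J 0 = ⌊(N : ℝ) ^ δ⌋₊ := by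
  unfold Lf
  simp

theorem Lf_top (δ : ℝ) (N J : ℕ) (hJ : 1 ≤ J) : Lf δ N J J = ⌊(N : ℝ) ^ (1 - 2 * δ)⌋₊ := by
  unfold Lf
  congr 2
  have : (J : ℝ) ≠ 0 := by positivity
  field_simp
  ring

theorem Lf_mono (δ : ℝ) (hδ3 : δ ≤ 1 / 3) (N J j i : ℕ) (hN : 1 ≤ N) (hJ : 1 ≤ J) (hij : i ≤ j) :
    Lf δ N J i ≤ Lf δ N J j := by
  unfold Lf
  apply Nat.floor_mono
  apply Real.rpow_le_rpow_of_exponent_le (by exact_mod_cast hN)
  have hJ0 : (0 : ℝ) < J := by exact_mod_cast hJ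
  have h1 : (i : ℝ) ≤ j := by exact_mod_cast hij
  have h2 : 0 ≤ 1 - 3 * δ := by linarith
  have h3 : (1 - 3 * δ) * i / J ≤ (1 - 3 * δ) * j / J := by gcongr
  linarith

theorem sum_Ioc_chain (f : ℕ → ℝ) (a : ℕ → ℕ) (J : ℕ) (ha : ∀ j, a j ≤ a (j + 1)) :
    ∑ l ∈ Ioc (a 0) (a J), f l = ∑ j ∈ range J, ∑ l ∈ Ioc (a j) (a (j + 1)), f l := by
  induction J with
  | zero => simp
  | succ J ih =>
    rw [sum_range_succ, ← ih, sum_Ioc_consecutive]
    · exact monotone_nat_of_le_succ ha (Nat.zero_le J)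
    · exact ha J

/-- the sum of `d_r` over a residue class from below, combinatorially -/
theorem comb_lower (s N k : ℕ) (c : ℤ) (a : ℕ → ℕ) (J : ℕ) (ha : ∀ j, a j ≤ a (j + 1)) (haN : a J ≤ N) :
    ∑ j ∈ range J, ∑ l ∈ Ioc (a j) (a (j + 1)), (dk (s + 1) l : ℝ) * cnt c k 0 (N / a (j + 1)) l ≤
      ∑ m ∈ Icc 1 N, if (k : ℤ) ∣ (m : ℤ) + c then (dk (s + 2) m : ℝ) else 0 := by
  have h1 : ∀ m ∈ Icc 1 N, (if (k : ℤ) ∣ (m : ℤ) + c then (dk (s + 2) m : ℝ) else 0) =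
      ∑ i ∈ m.divisorsAntidiagonal, if (k : ℤ) ∣ (i.1 : ℤ) * i.2 + c then (dk (s + 1) i.2 : ℝ) else 0 := by
    intro m hm
    have e1 : dk (s + 2) m = ∑ i ∈ m.divisorsAntidiagonal, dk (s + 1) i.2 := by
      rw [dk_succ_apply, Nat.sum_divisorsAntidiagonal' (f := fun _ l => dk (s + 1) l)]
    rw [e1]
    push_cast
    split_ifs with h
    · apply sum_congr rfl
      intro i hi
      rw [Nat.mem_divisorsAntidiagonal] at hi
      have : ((i.1 : ℤ) * i.2 + c) = (m : ℤ) + c := by rw [← hi.1]; push_cast; ring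
      rw [this, if_pos h]
    · symm
      apply sum_eq_zero
      intro i hi
      rw [Nat.mem_divisorsAntidiagonal] at hi
      have : ((i.1 : ℤ) * i.2 + c) = (m : ℤ) + c := by rw [← hi.1]; push_cast; ring
      rw [this, if_neg h]
  rw [sum_congr rfl h1, hyperC N (fun b l => if (k : ℤ) ∣ (b : ℤ) * l + c then (dk (s + 1) l : ℝ) else 0)]
  have hsub : Ioc (a 0) (a J) ⊆ Icc 1 N := by
    intro l hl
    rw [mem_Ioc] at hl
    rw [mem_Icc]
    omega
  refine le_trans ?_ (sum_le_sum_of_subset_of_nonneg hsub fun l _ _ => sum_nonneg fun b _ => by split_ifs <;> positivity)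
  rw [sum_Ioc_chain _ a J ha]
  apply sum_le_sum
  intro j _
  apply sum_le_sum
  intro l hl
  rw [mem_Ioc] at hl
  unfold cnt
  rw [card_filter]
  push_cast
  rw [mul_sum]
  have hsub2 : Ioc 0 (N / a (j + 1)) ⊆ Icc 1 (N / l) := by
    intro b hb
    rw [mem_Ioc] at hb
    rw [mem_Icc]
    exact ⟨hb.1, hb.2.trans (Nat.div_le_div_left hl.2 (by omega))⟩
  refine le_trans (le_of_eq ?_) (sum_le_sum_of_subset_of_nonneg hsub2 fun b _ _ => by split_ifs <;> positivity)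
  apply sum_congr rfl
  intro b _
  split_ifs <;> simp

/-- the sum -/
noncomputable def SS (s : ℕ) (c : ℤ) (N K : ℕ) : ℝ :=
  ∑ m ∈ Icc 1 N, (dk (s + 2) m : ℝ) * ∑ k ∈ (Icc 1 K).filter (fun k : ℕ => (k : ℤ) ∣ (m : ℤ) + c), (dk (s + 1) k : ℝ)

theorem SS_eq (s : ℕ) (c : ℤ) (N K : ℕ) : SS s c N K =
    ∑ k ∈ Icc 1 K, (dk (s + 1) k : ℝ) * ∑ m ∈ Icc 1 N, if (k : ℤ) ∣ (m : ℤ) + c then (dk (s + 2) m : ℝ) else 0 := by
  unfold SS
  have h1 : ∀ m ∈ Icc 1 N, (dk (s + 2) m : ℝ) * ∑ k ∈ (Icc 1 K).filter (fun k : ℕ => (k : ℤ) ∣ (m : ℤ) + c), (dk (s + 1) k : ℝ) =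
      ∑ k ∈ Icc 1 K, (dk (s + 1) k : ℝ) * (if (k : ℤ) ∣ (m : ℤ) + c then (dk (s + 2) m : ℝ) else 0) := by
    intro m _
    rw [sum_filter, mul_sum]
    apply sum_congr rfl
    intro k _
    split_ifs <;> ring
  rw [sum_congr rfl h1, sum_comm]
  apply sum_congr rfl
  intro k _
  rw [mul_sum]

theorem SS_lower (s : ℕ) (c : ℤ) (hc : c ≠ 0) (δ : ℝ) (hδ : 0 < δ) (hδ3 : δ ≤ 1 / 3) : ∃ N₀ : ℕ, 1 ≤ N₀ ∧ ∀ N : ℕ, N₀ ≤ N →
    ∀ K : ℕ, (K : ℝ) ≤ (N : ℝ) ^ (1 / 2 - δ) →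
    N / (1 + δ) * (DT (dw s) (dw s) c K ⌊(N : ℝ) ^ (1 - 2 * δ)⌋₊ - DT (dw s) (dw s) c K ⌊(N : ℝ) ^ δ⌋₊) -
      (N : ℝ) ^ (1 - δ / 32) ≤ SS s c N K := by
  obtain ⟨N₁, hN₁, hBV⟩ := BV c hc (δ / 2) (by positivity) (by linarith)
  obtain ⟨N₂, hN₂, hdk⟩ := dk_big (s + 1) (δ / 128) (by positivity)
  have hlq : 0 < Real.log (1 + δ / 2) := Real.log_pos (by linarith)
  obtain ⟨N₃, hN₃⟩ := ev_pow 1 (2 / Real.log (1 + δ / 2) + 2) (δ / 32 - δ / 128) (by linarith)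
  obtain ⟨N₄, hN₄⟩ := ev_pow 0 ((1 + δ) / (δ / 2)) (2 * δ) (by positivity)
  obtain ⟨N₅, hN₅⟩ := ev_pow 0 4 (δ / 2) (by positivity)
  refine ⟨max (max (max N₁ N₂) (max N₃ N₄)) (max N₅ 3), le_trans (by norm_num) ((le_max_right _ _).trans (le_max_right _ _)), ?_⟩
  intro N hN K hK
  have g1 : N₁ ≤ N := ((le_max_left _ _).trans (le_max_left _ _)).trans ((le_max_left _ _).trans hN)
  have g2 : N₂ ≤ N := ((le_max_right _ _).trans (le_max_left _ _)).trans ((le_max_left _ _).trans hN)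
  have g3 : N₃ ≤ N := ((le_max_left _ _).trans (le_max_right _ _)).trans ((le_max_left _ _).trans hN)
  have g4 : N₄ ≤ N := ((le_max_right _ _).trans (le_max_right _ _)).trans ((le_max_left _ _).trans hN)
  have g5 : N₅ ≤ N := (le_max_left _ _).trans ((le_max_right _ _).trans hN)
  have g6 : 3 ≤ N := (le_max_right _ _).trans ((le_max_right _ _).trans hN)
  have k3 := hN₃ N g3
  have k4 := hN₄ N g4
  have k5 := hN₅ N g5
  rw [pow_one] at k3
  rw [pow_zero, mul_one] at k4 k5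
  have hN1 : 1 ≤ N := by omega
  have hn1 : (1 : ℝ) ≤ N := by exact_mod_cast hN1
  have hn0 : (0 : ℝ) < N := by linarith
  have hlog1 : 1 ≤ Real.log N := by
    rw [← Real.log_exp 1]
    apply Real.log_le_log (Real.exp_pos _)
    have h1 := Real.exp_one_lt_d9
    have h2 : (3 : ℝ) ≤ N := by exact_mod_cast g6
    linarith
  -- the number of the intervals
  obtain ⟨J, hJdef⟩ : ∃ J : ℕ, J = ⌈Real.log N / Real.log (1 + δ / 2)⌉₊ + 1 := ⟨_, rfl⟩
  have hJ1 : 1 ≤ J := by omega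
  have hJr : (0 : ℝ) < J := by exact_mod_cast hJ1
  have hJlow : Real.log N / Real.log (1 + δ / 2) ≤ J := by
    rw [hJdef]
    push_cast
    have := Nat.le_ceil (Real.log N / Real.log (1 + δ / 2))
    linarith
  have hJup : (J : ℝ) ≤ (2 / Real.log (1 + δ / 2) + 2) * Real.log N := by
    rw [hJdef]
    push_cast
    have h1 := Nat.ceil_lt_add_one (a := Real.log N / Real.log (1 + δ / 2)) (by positivity)
    have h2 : 0 ≤ Real.log N / Real.log (1 + δ / 2) := by positivity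
    have e : (2 / Real.log (1 + δ / 2) + 2) * Real.log N = 2 * (Real.log N / Real.log (1 + δ / 2)) + 2 * Real.log N := by ring
    rw [e]
    linarith
  obtain ⟨a, ha⟩ : ∃ a : ℕ → ℕ, a = fun j => Lf δ N J j := ⟨_, rfl⟩
  have hamono : ∀ j, a j ≤ a (j + 1) := by
    intro j
    rw [ha]
    exact Lf_mono δ hδ3 N J (j + 1) j hN1 hJ1 (Nat.le_succ j)
  have haJ : a J = ⌊(N : ℝ) ^ (1 - 2 * δ)⌋₊ := by rw [ha]; exact Lf_top δ N J hJ1
  have ha0 : a 0 = ⌊(N : ℝ) ^ δ⌋₊ := by rw [ha]; exact Lf_zero δ N J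
  have hmonoA : Monotone a := monotone_nat_of_le_succ hamono
  have haJr : (a J : ℝ) ≤ (N : ℝ) ^ (1 - 2 * δ) := by rw [haJ]; exact Nat.floor_le (by positivity)
  have hale : ∀ j, j ≤ J → (a j : ℝ) ≤ (N : ℝ) ^ (1 - 2 * δ) := by
    intro j hj
    refine le_trans ?_ haJr
    exact_mod_cast hmonoA hj
  have hNd : (N : ℝ) ^ (1 - 2 * δ) ≤ N := by
    conv_rhs => rw [← Real.rpow_one (N : ℝ)]
    exact Real.rpow_le_rpow_of_exponent_le hn1 (by linarith)
  have haN : ∀ j, j ≤ J → a j ≤ N := by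
    intro j hj
    have := (hale j hj).trans hNd
    exact_mod_cast this
  have ha0r : (N : ℝ) ^ δ / 2 ≤ (a 0 : ℝ) := by
    rw [ha0]
    have h1 := Nat.lt_floor_add_one ((N : ℝ) ^ δ)
    have h2 : (4 : ℝ) ≤ (N : ℝ) ^ δ := k5.trans (Real.rpow_le_rpow_of_exponent_le hn1 (by linarith))
    linarith
  have hapos : ∀ j, (0 : ℝ) < a j := by
    intro j
    have h1 : (a 0 : ℝ) ≤ a j := by exact_mod_cast hmonoA (Nat.zero_le j)
    have h2 : (0 : ℝ) < (N : ℝ) ^ δ / 2 := by positivity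
    linarith
  have hvj : ∀ j, ((N / a (j + 1) : ℕ) : ℝ) ≤ (N : ℝ) ^ (1 - δ / 2) := by
    intro j
    have h1 : (a 0 : ℝ) ≤ a (j + 1) := by exact_mod_cast hmonoA (Nat.zero_le _)
    calc ((N / a (j + 1) : ℕ) : ℝ) ≤ (N : ℝ) / a (j + 1) := Nat.cast_div_le
      _ ≤ (N : ℝ) / ((N : ℝ) ^ δ / 2) := by
          apply div_le_div_of_nonneg_left hn0.le (by positivity)
          linarith
      _ = 2 * (N : ℝ) ^ (1 - δ) := by
          rw [Real.rpow_sub hn0, Real.rpow_one]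
          field_simp
      _ ≤ (N : ℝ) ^ (δ / 2) * (N : ℝ) ^ (1 - δ) := by
          apply mul_le_mul_of_nonneg_right _ (by positivity)
          linarith
      _ = _ := by rw [← Real.rpow_add hn0]; congr 1; ring
  have hEr : ∀ j ∈ range J, ∑ k ∈ Icc 1 K, |Er c k 0 (N / a (j + 1)) (dw s) (a j) (a (j + 1))| ≤ (N : ℝ) ^ (1 - δ / 16) := by
    intro j hj
    rw [mem_range] at hj
    have h1 := hBV N g1 K 0 (N / a (j + 1)) (a j) (a (j + 1)) (dw s) (hK.trans (Real.rpow_le_rpow_of_exponent_le hn1 (by linarith)))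
      (Nat.zero_le _) (by
        have : N / a (j + 1) * a (j + 1) ≤ N := Nat.div_mul_le_self _ _
        have h2 : ((N / a (j + 1) : ℕ) : ℝ) * (a (j + 1) : ℝ) ≤ N := by exact_mod_cast this
        linarith) (hvj j) ((hale (j + 1) (by omega)).trans (Real.rpow_le_rpow_of_exponent_le hn1 (by linarith)))
      (fun l hl => by
        unfold dw
        rw [abs_of_nonneg (Nat.cast_nonneg _)]
        have := hdk N g2 l (hl.trans (haN (j + 1) (by omega)))
        refine this.trans (le_of_eq ?_)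
        congr 1
        ring)
    refine h1.trans (le_of_eq ?_)
    congr 1
    ring
  -- the ratio
  have hratio : ∀ j, j < J → ∀ l ∈ Ioc (a j) (a (j + 1)), (N : ℝ) / (1 + δ) * (1 / l) ≤ ((N / a (j + 1) : ℕ) : ℝ) := by
    intro j hj l hl
    rw [mem_Ioc] at hl
    have hl0 : (0 : ℝ) < l := by
      have : 0 < l := by omega
      exact_mod_cast this
    have hp : (0 : ℝ) < a (j + 1) := hapos (j + 1)
    have hp' : 0 < a (j + 1) := by exact_mod_cast hp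
    have e1 : (a (j + 1) : ℝ) ≤ (1 + δ / 2) * l := by
      have h1 : (a (j + 1) : ℝ) ≤ (N : ℝ) ^ (δ + (1 - 3 * δ) * ((j + 1 : ℕ) : ℝ) / J) := by
        rw [ha]
        exact Nat.floor_le (by positivity)
      have h2 : (N : ℝ) ^ (δ + (1 - 3 * δ) * (j : ℝ) / J) < (l : ℝ) := by
        have h3 : ⌊(N : ℝ) ^ (δ + (1 - 3 * δ) * (j : ℝ) / J)⌋₊ < l := by
          have := hl.1
          rw [ha] at this
          exact this
        exact (Nat.floor_lt (by positivity)).1 h3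
      have h4 : (N : ℝ) ^ (δ + (1 - 3 * δ) * ((j + 1 : ℕ) : ℝ) / J) =
          (N : ℝ) ^ ((1 - 3 * δ) / J) * (N : ℝ) ^ (δ + (1 - 3 * δ) * (j : ℝ) / J) := by
        rw [← Real.rpow_add hn0]
        congr 1
        push_cast
        ring
      have h5 : (N : ℝ) ^ ((1 - 3 * δ) / J) ≤ 1 + δ / 2 := by
        rw [← Real.log_le_log_iff (by positivity) (by positivity), Real.log_rpow hn0, div_mul_eq_mul_div, div_le_iff₀ hJr]
        have h6 : Real.log N ≤ Real.log (1 + δ / 2) * J := by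
          rw [div_le_iff₀ hlq] at hJlow
          linarith
        have h7 : (1 - 3 * δ) * Real.log N ≤ 1 * Real.log N := mul_le_mul_of_nonneg_right (by linarith) (by linarith)
        linarith
      rw [h4] at h1
      refine h1.trans ?_
      exact mul_le_mul h5 h2.le (by positivity) (by linarith)
    have e2 : (N : ℝ) / a (j + 1) < ((N / a (j + 1) : ℕ) : ℝ) + 1 := by
      rw [div_lt_iff₀ hp]
      have := Nat.lt_mul_div_succ N hp'
      calc (N : ℝ) < ((a (j + 1) * (N / a (j + 1) + 1) : ℕ) : ℝ) := by exact_mod_cast this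
        _ = _ := by push_cast; ring
    have e3 : (N : ℝ) ^ (2 * δ) ≤ (N : ℝ) / a (j + 1) := by
      rw [le_div_iff₀ hp]
      calc (N : ℝ) ^ (2 * δ) * (a (j + 1) : ℝ) ≤ (N : ℝ) ^ (2 * δ) * (N : ℝ) ^ (1 - 2 * δ) :=
            mul_le_mul_of_nonneg_left (hale (j + 1) (by omega)) (by positivity)
        _ = N := by
            rw [← Real.rpow_add hn0]
            conv_rhs => rw [← Real.rpow_one (N : ℝ)]
            congr 1
            ring
    -- 1 ≤ (δ/2)/(1+δ) * N / a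
    have e4 : 1 ≤ (δ / 2) / (1 + δ) * ((N : ℝ) / a (j + 1)) := by
      have h1 : (1 + δ) / (δ / 2) ≤ (N : ℝ) / a (j + 1) := k4.trans e3
      rw [div_le_iff₀ (by positivity)] at h1
      rw [div_mul_eq_mul_div, le_div_iff₀ (by positivity)]
      linarith
    have e5 : (N : ℝ) / (1 + δ) * (1 / l) ≤ (1 + δ / 2) / (1 + δ) * ((N : ℝ) / a (j + 1)) := by
      rw [mul_one_div, div_div, div_mul_div_comm, div_le_div_iff₀ (by positivity) (by positivity)]
      have : (N : ℝ) * ((1 + δ) * a (j + 1)) ≤ N * ((1 + δ) * ((1 + δ / 2) * l)) := by gcongr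
      linarith
    have e6 : (1 + δ / 2) / (1 + δ) * ((N : ℝ) / a (j + 1)) = (N : ℝ) / a (j + 1) - (δ / 2) / (1 + δ) * ((N : ℝ) / a (j + 1)) := by
      field_simp
      ring
    linarith
  -- assembly
  rw [SS_eq]
  have hW : ∀ k, 0 ≤ (dk (s + 1) k : ℝ) := fun k => Nat.cast_nonneg _
  have hKN : K ≤ N := by
    have h1 : (K : ℝ) ≤ N := by
      refine hK.trans ?_
      conv_rhs => rw [← Real.rpow_one (N : ℝ)]
      exact Real.rpow_le_rpow_of_exponent_le hn1 (by linarith)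
    exact_mod_cast h1
  have step1 : ∀ k ∈ Icc 1 K, (dk (s + 1) k : ℝ) * (N / (1 + δ) * ∑ l ∈ Ioc (a 0) (a J), (dk (s + 1) l : ℝ) * gd c k l / (k * l)) -
      (N : ℝ) ^ (δ / 128) * ∑ j ∈ range J, |Er c k 0 (N / a (j + 1)) (dw s) (a j) (a (j + 1))| ≤
      (dk (s + 1) k : ℝ) * ∑ m ∈ Icc 1 N, (if (k : ℤ) ∣ (m : ℤ) + c then (dk (s + 2) m : ℝ) else 0) := by
    intro k hk
    rw [mem_Icc] at hk
    have hk0 : (0 : ℝ) < k := by exact_mod_cast hk.1
    refine le_trans ?_ (mul_le_mul_of_nonneg_left (comb_lower s N k c a J hamono (haN J le_rfl)) (hW k))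
    have h1 : ∑ j ∈ range J, ∑ l ∈ Ioc (a j) (a (j + 1)), (dk (s + 1) l : ℝ) * cnt c k 0 (N / a (j + 1)) l =
        ∑ j ∈ range J, ∑ l ∈ Ioc (a j) (a (j + 1)), (dk (s + 1) l : ℝ) * (((N / a (j + 1) : ℕ) : ℝ) * gd c k l / k) +
        ∑ j ∈ range J, Er c k 0 (N / a (j + 1)) (dw s) (a j) (a (j + 1)) := by
      rw [← sum_add_distrib]
      apply sum_congr rfl
      intro j _
      unfold Er dw
      rw [← sum_add_distrib]
      apply sum_congr rfl
      intro l _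
      rw [Nat.cast_zero]
      ring
    have h2 : N / (1 + δ) * ∑ l ∈ Ioc (a 0) (a J), (dk (s + 1) l : ℝ) * gd c k l / (k * l) ≤
        ∑ j ∈ range J, ∑ l ∈ Ioc (a j) (a (j + 1)), (dk (s + 1) l : ℝ) * (((N / a (j + 1) : ℕ) : ℝ) * gd c k l / k) := by
      rw [sum_Ioc_chain _ a J hamono, mul_sum]
      apply sum_le_sum
      intro j hj
      rw [mem_range] at hj
      rw [mul_sum]
      apply sum_le_sum
      intro l hl
      have h3 := hratio j hj l hl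
      have h4 := gd_nonneg c k l
      have h5 := hW l
      calc (N : ℝ) / (1 + δ) * ((dk (s + 1) l : ℝ) * gd c k l / (k * l)) =
          (dk (s + 1) l : ℝ) * ((N : ℝ) / (1 + δ) * (1 / l) * gd c k l / k) := by
            rw [mul_comm (k : ℝ) (l : ℝ), ← div_div]
            ring
        _ ≤ _ := by gcongr
    have h3 : -∑ j ∈ range J, |Er c k 0 (N / a (j + 1)) (dw s) (a j) (a (j + 1))| ≤
        ∑ j ∈ range J, Er c k 0 (N / a (j + 1)) (dw s) (a j) (a (j + 1)) := by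
      rw [← sum_neg_distrib]
      exact sum_le_sum fun j _ => neg_abs_le _
    have h4 : (dk (s + 1) k : ℝ) ≤ (N : ℝ) ^ (δ / 128) := hdk N g2 k (hk.2.trans hKN)
    have h5 : 0 ≤ ∑ j ∈ range J, |Er c k 0 (N / a (j + 1)) (dw s) (a j) (a (j + 1))| := sum_nonneg fun _ _ => abs_nonneg _
    have h6 : (dk (s + 1) k : ℝ) * ∑ j ∈ range J, |Er c k 0 (N / a (j + 1)) (dw s) (a j) (a (j + 1))| ≤
        (N : ℝ) ^ (δ / 128) * ∑ j ∈ range J, |Er c k 0 (N / a (j + 1)) (dw s) (a j) (a (j + 1))| :=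
      mul_le_mul_of_nonneg_right h4 h5
    rw [h1, mul_add]
    have h7 := mul_le_mul_of_nonneg_left h2 (hW k)
    have h8 := mul_le_mul_of_nonneg_left h3 (hW k)
    linarith
  have step2 := sum_le_sum step1
  rw [sum_sub_distrib] at step2
  refine le_trans ?_ step2
  have e1 : DT (dw s) (dw s) c K ⌊(N : ℝ) ^ (1 - 2 * δ)⌋₊ - DT (dw s) (dw s) c K ⌊(N : ℝ) ^ δ⌋₊ =
      ∑ k ∈ Icc 1 K, (dk (s + 1) k : ℝ) * ∑ l ∈ Ioc (a 0) (a J), (dk (s + 1) l : ℝ) * gd c k l / (k * l) := by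
    rw [← haJ, ← ha0]
    unfold DT
    rw [← sum_sub_distrib]
    apply sum_congr rfl
    intro k _
    have h1 : ∑ l ∈ Icc 1 (a J), dw s k * dw s l * gd c k l / (k * l) = ∑ l ∈ Icc 1 (a 0), dw s k * dw s l * gd c k l / (k * l) +
        ∑ l ∈ Ioc (a 0) (a J), dw s k * dw s l * gd c k l / (k * l) := by
      rw [Icc_eq_Ioc, Icc_eq_Ioc, sum_Ioc_consecutive _ (Nat.zero_le _) (hmonoA (Nat.zero_le J))]
    rw [h1, add_sub_cancel_left, mul_sum]
    apply sum_congr rfl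
    intro l _
    unfold dw
    ring
  have e2 : ∑ k ∈ Icc 1 K, (dk (s + 1) k : ℝ) * (N / (1 + δ) * ∑ l ∈ Ioc (a 0) (a J), (dk (s + 1) l : ℝ) * gd c k l / (k * l)) =
      N / (1 + δ) * (DT (dw s) (dw s) c K ⌊(N : ℝ) ^ (1 - 2 * δ)⌋₊ - DT (dw s) (dw s) c K ⌊(N : ℝ) ^ δ⌋₊) := by
    rw [e1, mul_sum]
    apply sum_congr rfl
    intro k _
    ring
  have e3 : ∑ k ∈ Icc 1 K, (N : ℝ) ^ (δ / 128) * ∑ j ∈ range J, |Er c k 0 (N / a (j + 1)) (dw s) (a j) (a (j + 1))| ≤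
      (N : ℝ) ^ (1 - δ / 32) := by
    rw [← mul_sum, sum_comm]
    calc (N : ℝ) ^ (δ / 128) * ∑ j ∈ range J, ∑ k ∈ Icc 1 K, |Er c k 0 (N / a (j + 1)) (dw s) (a j) (a (j + 1))| ≤
        (N : ℝ) ^ (δ / 128) * ∑ _j ∈ range J, (N : ℝ) ^ (1 - δ / 16) :=
          mul_le_mul_of_nonneg_left (sum_le_sum hEr) (by positivity)
      _ = (N : ℝ) ^ (δ / 128) * (J * (N : ℝ) ^ (1 - δ / 16)) := by rw [sum_const, card_range, nsmul_eq_mul]
      _ ≤ (N : ℝ) ^ (δ / 128) * ((N : ℝ) ^ (δ / 32 - δ / 128) * (N : ℝ) ^ (1 - δ / 16)) := by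
          gcongr
          exact hJup.trans k3
      _ = _ := by
          rw [← Real.rpow_add hn0, ← Real.rpow_add hn0]
          congr 1
          ring
  rw [e2]
  linarith

end Pool.Agent.V5helper54.DC
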